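import Pool.Agent.Y811.PC.Stm6
import Pool.Agent.Y510.PC.Fin

set_option autoImplicit false

/-! # The fixed point formula and the parameters without attracting cycle -/

namespace Pool.Agent.Y811.PC

open Complex Metric Set Filter Topology MeasureTheory Pool.Agent.H712R2 Pool.Agent.H713R2 N62a1eb23

/-- the sum of the inverses of the derivatives over all (simple) zeros of a monic polynomial of degree
at least two is zero -/
theorem sum_inv_deriv {p : Polynomial ℂ} (hp : p.Monic) (h2 : 2 ≤ p.natDegree)
    (hs : ∀ z, p.eval z = 0 → p.derivative.eval z ≠ 0) :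
    p.roots.toFinset.card = p.natDegree ∧
      ∑ z ∈ p.roots.toFinset, (p.derivative.eval z)⁻¹ = 0 := by
  have hne : p ≠ 0 := hp.ne_zero
  have hnd : p.roots.Nodup := by
    rw [Multiset.nodup_iff_count_le_one]
    intro z
    rw [Polynomial.count_roots]
    by_contra hcon
    push Not at hcon
    rw [Polynomial.one_lt_rootMultiplicity_iff_isRoot hne] at hcon
    exact hs z hcon.1 hcon.2
  have hcard : p.roots.toFinset.card = p.natDegree := by
    rw [Multiset.toFinset_card_of_nodup hnd]
    exact ((IsAlgClosed.splits p).natDegree_eq_card_roots).symm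
  refine ⟨hcard, ?_⟩
  have hprod : p = ∏ z ∈ p.roots.toFinset, (Polynomial.X - Polynomial.C z) := by
    have h3 := (IsAlgClosed.splits p).eq_prod_roots_of_monic hp
    rw [Finset.prod, Multiset.toFinset_val, Multiset.dedup_eq_self.2 hnd]
    exact h3
  have hder : ∀ z ∈ p.roots.toFinset,
      p.derivative.eval z = ∏ w ∈ p.roots.toFinset.erase z, (z - w) := by
    intro z hz
    have h4 := Lagrange.eval_nodal_derivative_eval_node_eq (s := p.roots.toFinset) (v := id) hz
    rw [Lagrange.nodal_eq] at h4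
    simp only [id] at h4
    rw [← hprod, Lagrange.eval_nodal] at h4
    exact h4
  have h5 := Lagrange.coeff_eq_sum (s := p.roots.toFinset) (v := id) (Function.injective_id.injOn)
    (P := (1 : Polynomial ℂ)) (by
      rw [Polynomial.degree_one, hcard]
      exact_mod_cast (show 0 < p.natDegree by omega))
  rw [hcard, Polynomial.coeff_one, if_neg (by omega)] at h5
  rw [h5]
  refine Finset.sum_congr rfl fun z hz => ?_
  rw [hder z hz, Polynomial.eval_one, one_div]
  rfl

/-- every parameter without attracting cycle, every periodic point -/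
theorem strip_global {d n : ℕ} (hd : 2 ≤ d) (hn : 1 ≤ n) {c : ℂ}
    (hsimp : ∀ z, G d n c z = z → mu d n c z ≠ 1)
    (hhyp : ∀ z, G d n c z = z → 1 ≤ ‖mu d n c z‖) {z₁ : ℂ} (hz₁ : G d n c z₁ = z₁) :
    (1 / (1 - mu d n c z₁)).re ≤ 1 / 2 ∧
      -(((d : ℝ) ^ n - 1) / 2) ≤ (1 / (1 - mu d n c z₁)).re := by
  have hhalf : ∀ z, G d n c z = z → (1 / (1 - mu d n c z)).re ≤ 1 / 2 := by
    intro z hz
    have h1 := hsimp z hz
    have h2 := hhyp z hz
    obtain ⟨l, hl⟩ : ∃ l, l = mu d n c z := ⟨_, rfl⟩
    rw [← hl] at h1 h2 ⊢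
    rw [one_div, Complex.inv_re, div_le_iff₀ (Complex.normSq_pos.2 (sub_ne_zero.2 h1.symm))]
    have h3 : 1 ≤ Complex.normSq l := by
      rw [Complex.normSq_eq_norm_sq]
      nlinarith [norm_nonneg l]
    rw [Complex.normSq_apply] at h3 ⊢
    simp only [Complex.sub_re, Complex.one_re, Complex.sub_im, Complex.one_im]
    nlinarith
  refine ⟨hhalf z₁ hz₁, ?_⟩
  obtain ⟨p, hp⟩ : ∃ p : Polynomial ℂ,
      p = (Pool.Agent.Y510.PC.Ph d n).map (Polynomial.evalRingHom c) := ⟨_, rfl⟩
  have hmon := Pool.Agent.Y510.PC.Ph_monic hd hn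
  have hpm : p.Monic := by rw [hp]; exact hmon.1.map _
  have hpd : p.natDegree = d ^ n := by rw [hp, hmon.1.natDegree_map, hmon.2]
  have hpe : ∀ z, p.eval z = G d n c z - z := by
    intro z
    rw [hp]
    exact Pool.Agent.Y510.PC.Ph_eval d n c z
  have hdiff : Differentiable ℂ (G d n c) := by
    have h0 : Differentiable ℂ (fc d c) := by
      intro z
      exact ((differentiable_id z).pow d).add_const c
    exact h0.iterate n
  have hpd' : ∀ z, p.derivative.eval z = mu d n c z - 1 := by
    intro z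
    have h1 : HasDerivAt (fun z => p.eval z) (p.derivative.eval z) z := p.hasDerivAt z
    have h2 : HasDerivAt (fun z => G d n c z - z) (mu d n c z - 1) z :=
      (hdiff z).hasDerivAt.sub (hasDerivAt_id z)
    have h3 : (fun z => p.eval z) = fun z => G d n c z - z := funext hpe
    rw [h3] at h1
    exact h1.unique h2
  have h2 : 2 ≤ p.natDegree := by
    rw [hpd]
    calc 2 ≤ d := hd
      _ = d ^ 1 := (pow_one d).symm
      _ ≤ d ^ n := Nat.pow_le_pow_right (by omega) hn
  obtain ⟨hcard, hsum⟩ := sum_inv_deriv hpm h2 (by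
    intro z hz
    rw [hpd']
    rw [hpe] at hz
    exact sub_ne_zero.2 (hsimp z (sub_eq_zero.1 hz)))
  have hmem : ∀ z, z ∈ p.roots.toFinset ↔ G d n c z = z := by
    intro z
    rw [Multiset.mem_toFinset, Polynomial.mem_roots hpm.ne_zero, Polynomial.IsRoot.def, hpe,
      sub_eq_zero]
  have hsum' : ∑ z ∈ p.roots.toFinset, (1 / (1 - mu d n c z)).re = 0 := by
    have h3 : ∑ z ∈ p.roots.toFinset, (1 / (1 - mu d n c z)) = 0 := by
      rw [← neg_eq_zero, ← Finset.sum_neg_distrib, ← hsum]
      refine Finset.sum_congr rfl fun z _ => ?_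
      rw [hpd', ← neg_sub, one_div, inv_neg, neg_neg]
    have h4 := congrArg Complex.re h3
    rw [Complex.re_sum, Complex.zero_re] at h4
    exact h4
  rw [← Finset.add_sum_erase _ _ ((hmem z₁).2 hz₁)] at hsum'
  have h6 : ∑ z ∈ p.roots.toFinset.erase z₁, (1 / (1 - mu d n c z)).re ≤
      ∑ _z ∈ p.roots.toFinset.erase z₁, (1 / 2 : ℝ) := by
    refine Finset.sum_le_sum fun z hz => hhalf z ((hmem z).1 (Finset.mem_of_mem_erase hz))
  rw [Finset.sum_const, nsmul_eq_mul, Finset.card_erase_of_mem ((hmem z₁).2 hz₁), hcard, hpd,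
    Nat.cast_sub (Nat.one_le_pow _ _ (by omega))] at h6
  push_cast at h6
  linarith

theorem t_AIDX : S_AIDX := by
  intro d m q c₀ z₀ h al hal hal0 hev
  obtain ⟨ε, hε, hball⟩ := Metric.eventually_nhds_iff_ball.1 hev
  have hn : 1 ≤ m * q := Nat.mul_pos h.hm h.hq
  refine ⟨(d : ℝ) ^ (m * q), ε, ?_, hε, ?_⟩
  · have : (0 : ℝ) < d := by exact_mod_cast (show 0 < d by have := h.hd; omega)
    positivity
  · intro c hc hsimp hhyp
    have hfix := hball c hc
    have hGq : G d (m * q) c (al c) = al c := by
      unfold G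
      rw [Function.iterate_mul]
      exact (show Function.IsFixedPt (G d m c) (al c) from hfix).iterate q
    have hdiff : Differentiable ℂ (G d m c) := by
      have h0 : Differentiable ℂ (fc d c) := by
        intro z
        exact ((differentiable_id z).pow d).add_const c
      exact h0.iterate m
    have hmuq : mu d (m * q) c (al c) = mu d m c (al c) ^ q := by
      have h1 : HasDerivAt (G d m c) (mu d m c (al c)) (al c) := (hdiff (al c)).hasDerivAt
      have h2 := HasDerivAt.iterate (al c) h1 hfix q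
      unfold mu G
      rw [Function.iterate_mul]
      exact h2.deriv
    obtain ⟨h1, h2⟩ := strip_global h.hd hn hsimp (fun z hz => by
      by_contra hcon
      push Not at hcon
      exact hhyp ⟨m * q, z, hn, hz, hcon⟩) hGq
    rw [hmuq] at h1 h2
    have h3 : (1 : ℝ) ≤ (d : ℝ) ^ (m * q) := one_le_pow₀ (by
      exact_mod_cast (show 1 ≤ d by have := h.hd; omega))
    rw [abs_le]
    constructor <;> linarith

end Pool.Agent.Y811.PC
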