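import Pool.Agent.Y811.PC.Fin4
import Pool.Agent.Y811.PC.Idx
import Pool.Agent.Y151.PC.Thin
import Pool.Agent.Y151.PC.Strip
import Pool.Agent.Y977.PA.Out
import Pool.Agent.Y500.PC.Low
import Pool.Agent.Y259.PA.Koe
import Pool.Agent.Y109.PA.UPrim

set_option autoImplicit false

/-! # Exact order of the density of hyperbolicity at the parabolic parameters: assembly -/

namespace Pool.Agent.Y811.PC

open Complex Metric Set Filter Topology MeasureTheory Pool.Agent.H712R2 Pool.Agent.H713R2 N62a1eb23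

theorem hTHIN : S_THIN := Pool.Agent.Y151.PC.t_THIN t_AIDX hANA

theorem hSTRIP : S_STRIP := Pool.Agent.Y151.PC.t_STRIP

theorem hOUT : S_OUT := Pool.Agent.Y977.PA.t_OUT (Pool.Agent.Y500.PC.t_LOW Pool.Agent.Y259.PA.t_KOE)

theorem hUPRIM : S_UPRIM := Pool.Agent.Y109.PA.t_UPRIM hIFT hANA

theorem G_differentiable (d m : ℕ) (c : ℂ) : Differentiable ℂ (G d m c) := by
  have h0 : Differentiable ℂ (fc d c) := by
    intro z
    exact ((differentiable_id z).pow d).add_const c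
  exact h0.iterate m

theorem dens_final {d m q : ℕ} {c₀ z₀ : ℂ} (h : PD d m q c₀ z₀) {e : ℝ}
    (he : e = if mu d m c₀ z₀ = 1 then 3 / 2 else 2) :
    ∃ C r₀ : ℝ, 0 < C ∧ 0 < r₀ ∧ ∀ r : ℝ, 0 < r → r < r₀ →
      volume (ball c₀ r ∩ {c | ¬ HypP d c}) ≤ ENNReal.ofReal (C * r ^ (1 + e)) ∧
      ENNReal.ofReal (r ^ (1 + e) / C) ≤ volume (ball c₀ r \ multibrotSet d) ∧
      (∀ (c₁ : ℂ) (s : ℝ), ball c₁ s ⊆ ball c₀ r ∩ {c | ¬ HypP d c} → s ≤ C * r ^ e) ∧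
      ∃ c₁ : ℂ, ball c₁ (r ^ e / C) ⊆ ball c₀ r \ multibrotSet d :=
  dens_law hTHIN hUPRIM hSTRIP hOUT h he

end Pool.Agent.Y811.PC
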