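import Pool.Agent.Y811.PC.Stm4

set_option autoImplicit false

/-! # Correction of `S_ANN` (parentheses) -/

namespace Pool.Agent.Y811.PC

open Complex Metric Set Filter Topology Pool.Agent.H712R2 Pool.Agent.H713R2 N62a1eb23

/-- the mass on the preimage of `VV` is at most the mass on `VV` plus `O(r)` -/
def S_ANNp : Prop := ∀ (d m : ℕ) (c : ℂ) (b β : ℕ → ℂ) (A : ℂ), Cyc d m c b β A →
  ∃ C r₀ : ℝ, 0 < C ∧ 0 < r₀ ∧ ∀ r : ℝ, 0 < r → r < r₀ →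
    (∫⁻ z in VV d m b r, ENNReal.ofReal ‖gg m b β A z‖) < ⊤ ∧
    (∫⁻ w in {w : ℂ | w ^ d + c ∈ VV d m b r}, ENNReal.ofReal ‖gg m b β A w‖) ≤
      (∫⁻ z in VV d m b r, ENNReal.ofReal ‖gg m b β A z‖) + ENNReal.ofReal (C * r)

end Pool.Agent.Y811.PC
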