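import Pool.Agent.Y811.PC.Fin2
import Pool.Agent.Y811.PC.Stm5
import Pool.Agent.Y153.PC.FE
import Pool.Agent.Y448.PC.Cov
import Pool.Agent.Y978.PC.Dec
import Pool.Agent.Y93.PC.Str
import Pool.Agent.Y67.PC.Ann
import Pool.Agent.Y447.PC.Nofix
import Pool.Agent.Y421.PC.Base
import Pool.Agent.Y421.PC.Sat
import Pool.Agent.Y672.PC.Sat
import Pool.Agent.Y547.PC.Prim

set_option autoImplicit false

/-! # The parabolic contact law: transversality, and the law in the parameter scale, unconditional -/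

namespace Pool.Agent.Y811.PC

open Complex Metric Set Filter Topology Pool.Agent.H712R2 Pool.Agent.H713R2 N62a1eb23

theorem hNOFIX : S_NOFIX :=
  Pool.Agent.Y447.PC.t_NOFIX Pool.Agent.Y153.PC.t_FE Pool.Agent.Y448.PC.t_COV
    Pool.Agent.Y93.PC.t_STRICT (Pool.Agent.Y67.PC.t_ANNp Pool.Agent.Y978.PC.t_DEC)

theorem hTRANS1 : S_TRANS1 := Pool.Agent.Y421.PC.t_TRANS1 hNOFIX

theorem hTRANS2 : S_TRANS2 := Pool.Agent.Y421.PC.t_TRANS2 hNOFIX hIFT hANA

theorem hSAT : S_SAT := Pool.Agent.Y672.PC.t_SAT hCSC hTRANS2 hIFT hANA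

theorem hPRIM : S_PRIM := Pool.Agent.Y547.PC.t_PRIM hIFT hANA

end Pool.Agent.Y811.PC
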