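import Mathlib
import Pool.Prelude.Def_F_c31e40fa
import Pool.Agent.Y736.ML3
import Pool.Agent.W677.MC8

set_option autoImplicit false

/-!
# The parabolic contact law: definitions and statements

`P d n c` is the `n`-th point of the critical orbit of `z ^ d + c` (`P d 0 c = 0`),
`G d m c` the `m`-th iterate of `z ^ d + c`.
-/

namespace Pool.Agent.Y811.PC

open Complex Metric Set Filter Topology Pool.Agent.H712R2 Pool.Agent.H713R2 N62a1eb23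
open Pool.Agent.Y736.HL Pool.Agent.Y736.ML

/-- the `m`-th iterate of `z ^ d + c` -/
def G (d m : ℕ) (c : ℂ) : ℂ → ℂ := (fc d c)^[m]

/-- the multiplier -/
noncomputable def mu (d m : ℕ) (c α : ℂ) : ℂ := deriv (G d m c) α

/-- the power `-q` of the multiplier -/
noncomputable def Lq (d m q : ℕ) (c α : ℂ) : ℂ := (mu d m c α ^ q)⁻¹

/-- geometric sums -/
noncomputable def gs (L : ℂ) (k : ℕ) : ℂ := ∑ i ∈ Finset.range k, L ^ i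

/-- parabolic data: `z₀` has exact period `m` for `z ^ d + c₀`, and the multiplier of its cycle
is a primitive `q`-th root of unity -/
structure PD (d m q : ℕ) (c₀ z₀ : ℂ) : Prop where
  hd : 2 ≤ d
  hm : 1 ≤ m
  hq : 1 ≤ q
  fix : G d m c₀ z₀ = z₀
  per : ∀ j, 0 < j → j < m → (fc d c₀)^[j] z₀ ≠ z₀
  mul : IsPrimitiveRoot (mu d m c₀ z₀) q

/-- the germ of the `q`-th iterate of `G d m c₀` at `z₀` has exactly `q` petals -/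
def Germ (d m q : ℕ) (c₀ z₀ : ℂ) (a : ℂ → ℂ) : Prop :=
  AnalyticAt ℂ a 0 ∧ a 0 ≠ 0 ∧
    ∀ᶠ u in 𝓝 (0 : ℂ), (G d m c₀)^[q] (z₀ + u) = z₀ + u + u ^ (q + 1) * a u

/-- the critical orbit converges to the cycle -/
def Orb (d m : ℕ) (c₀ z₀ : ℂ) (N₀ : ℕ) : Prop :=
  Tendsto (fun k => P d (N₀ + m * k) c₀) atTop (𝓝 z₀) ∧ ∀ k, P d (N₀ + m * k) c₀ ≠ z₀

/-- a normal form: `s c α u = u ^ q (1 + O(u))` and, with `g u = G d m c (α + u) - α`,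
`1 / s (g u) = Lq / s u - b + O(u)`, uniformly for `(c, α)` near `(c₀, z₀)` -/
structure NF (d m q : ℕ) (c₀ z₀ : ℂ) (s : ℂ → ℂ → ℂ → ℂ) (b : ℂ → ℂ → ℂ) (ρ ε C : ℝ) : Prop where
  hρ : 0 < ρ
  hρ1 : ρ ≤ 1 / 4
  hε : 0 < ε
  hε1 : ε ≤ 1 / 4
  hC : 0 ≤ C
  diff : DifferentiableOn ℂ (fun p : ℂ × ℂ × ℂ => s p.1 p.2.1 p.2.2)
    (ball c₀ ε ×ˢ (ball z₀ ε ×ˢ (univ : Set ℂ)))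
  cont : ContinuousOn (fun p : ℂ × ℂ => b p.1 p.2) (ball c₀ ε ×ˢ ball z₀ ε)
  mune : ∀ c ∈ ball c₀ ε, ∀ α ∈ ball z₀ ε, mu d m c α ≠ 0
  size : ∀ c ∈ ball c₀ ε, ∀ α ∈ ball z₀ ε, ∀ u : ℂ, ‖u‖ ≤ 2 * ρ →
    ‖u‖ ^ q / 2 ≤ ‖s c α u‖ ∧ ‖s c α u‖ ≤ 2 * ‖u‖ ^ q
  step : ∀ c ∈ ball c₀ ε, ∀ α ∈ ball z₀ ε, G d m c α = α → ∀ u : ℂ, u ≠ 0 → ‖u‖ ≤ ρ →
    ‖G d m c (α + u) - α‖ ≤ 2 * ‖u‖ ∧ G d m c (α + u) ≠ α ∧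
      ‖(s c α (G d m c (α + u) - α))⁻¹ - (Lq d m q c α * (s c α u)⁻¹ - b c α)‖ ≤ C * ‖u‖

/-! ## A. Fatou's theorem for `z ^ d + c` with exactly `q` petals -/

/-- holomorphic `d`-th roots on discs -/
def S_ROOT : Prop := ∀ (d : ℕ), 2 ≤ d → ∀ (h : ℂ → ℂ) (u : ℂ) (δ : ℝ), 0 < δ →
  DifferentiableOn ℂ h (ball u δ) → (∀ z ∈ ball u δ, h z ≠ 0) →
    ∃ s : ℂ → ℂ, DifferentiableOn ℂ s (ball u δ) ∧ ∀ z ∈ ball u δ, s z ^ d = h z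

/-- inverse branches on discs which do not meet the critical orbit -/
def S_BRANCH : Prop := ∀ (d : ℕ), 2 ≤ d → ∀ (c u₀ : ℂ) (δ : ℝ), 0 < δ → ∀ (n : ℕ) (v₀ : ℂ),
  (fc d c)^[n] v₀ = u₀ → (∀ j, 1 ≤ j → j ≤ n → P d j c ∉ ball u₀ δ) →
    ∃ φ : ℂ → ℂ, DifferentiableOn ℂ φ (ball u₀ δ) ∧ φ u₀ = v₀ ∧
      ∀ u ∈ ball u₀ δ, (fc d c)^[n] (φ u) = u

/-- the critical orbit meets one of the discs about the orbit of the start of a petal -/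
def S_PET : Prop := ∀ (d : ℕ), 2 ≤ d → ∀ (c z₀ : ℂ) (N : ℕ), 1 ≤ N → (fc d c)^[N] z₀ = z₀ →
  deriv ((fc d c)^[N]) z₀ = 1 → ∀ (ν : ℕ) (a : ℂ → ℂ) (A : ℂ) (κ R w₀ : ℝ) (u₀ : ℂ),
    AnalyticAt ℂ a 0 → a 0 ≠ 0 → Start ((fc d c)^[N]) z₀ ν a A κ R w₀ u₀ →
      ∃ k j, 1 ≤ j ∧ P d j c ∈ ball (z₀ + Vo ((fc d c)^[N]) z₀ u₀ k)
        (κ * ‖Vo ((fc d c)^[N]) z₀ u₀ k‖)

/-- different petals have different orbits -/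
def S_DIR : Prop := ∀ (g : ℂ → ℂ) (z₀ : ℂ) (ν : ℕ) (a : ℂ → ℂ) (A : ℂ) (κ R w₀ : ℝ) (u₀ u₁ : ℂ),
  Start g z₀ ν a A κ R w₀ u₀ → Start g z₀ ν a A κ R w₀ u₁ → ∀ (k k' l l' : ℕ) (v v' : ℂ),
    ‖v - Vo g z₀ u₀ k‖ < κ * ‖Vo g z₀ u₀ k‖ → ‖v' - Vo g z₀ u₁ k'‖ < κ * ‖Vo g z₀ u₁ k'‖ →
      Vo g z₀ v l = Vo g z₀ v' l' → u₀ = u₁

/-- at most `q` petals -/
def S_NULE : Prop := ∀ (d m q : ℕ) (c₀ z₀ : ℂ), PD d m q c₀ z₀ → ∀ (ν : ℕ) (a : ℂ → ℂ), 1 ≤ ν →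
  AnalyticAt ℂ a 0 → a 0 ≠ 0 →
    (∀ᶠ u in 𝓝 (0 : ℂ), (G d m c₀)^[q] (z₀ + u) = z₀ + u + u ^ (ν + 1) * a u) → ν ≤ q

/-- at least `q` petals -/
def S_NUGE : Prop := ∀ (g : ℂ → ℂ), Differentiable ℂ g → ∀ (z₀ : ℂ) (q : ℕ), 1 ≤ q → g z₀ = z₀ →
  IsPrimitiveRoot (deriv g z₀) q → ∀ (ν : ℕ) (a : ℂ → ℂ), 1 ≤ ν →
    AnalyticAt ℂ a 0 → a 0 ≠ 0 →
      (∀ᶠ u in 𝓝 (0 : ℂ), g^[q] (z₀ + u) = z₀ + u + u ^ (ν + 1) * a u) → q ≤ ν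

/-- Fatou's theorem -/
def S_FATOU : Prop := ∀ (d m q : ℕ) (c₀ z₀ : ℂ), PD d m q c₀ z₀ →
  (∃ a, Germ d m q c₀ z₀ a) ∧ (∃ N₀, 1 ≤ N₀ ∧ Orb d m c₀ z₀ N₀) ∧ c₀ ∈ multibrotSet d ∧ ‖z₀‖ ≤ 2

/-! ## B. The normal form -/

/-- the algebra of the normal form -/
def S_NFALG : Prop := ∀ (R : Type) [CommRing R] (q : ℕ) (lam : R) (g₂ : Polynomial R), 1 ≤ q →
  (∀ j, 1 ≤ j → j < q → IsUnit (lam ^ j - 1)) → IsUnit lam →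
    ∃ (s₁ E : Polynomial R) (B : R),
      (Polynomial.X ^ q * (1 + Polynomial.X * s₁)).comp
          (Polynomial.C lam * Polynomial.X + Polynomial.X ^ 2 * g₂) =
        Polynomial.C (lam ^ q) * (Polynomial.X ^ q * (1 + Polynomial.X * s₁)) +
        Polynomial.C B * (Polynomial.X ^ q * (1 + Polynomial.X * s₁)) ^ 2 +
        Polynomial.X ^ (2 * q + 1) * E

/-- the normal form with coefficients which depend holomorphically on `(c, α)` -/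
def S_NFA : Prop := ∀ (d m q : ℕ) (c₀ z₀ : ℂ), PD d m q c₀ z₀ →
  ∃ (ε : ℝ) (e E : ℕ → ℂ × ℂ → ℂ) (B : ℂ × ℂ → ℂ) (M : ℕ), 0 < ε ∧
    (∀ j, DifferentiableOn ℂ (e j) (ball c₀ ε ×ˢ ball z₀ ε)) ∧
    (∀ j, DifferentiableOn ℂ (E j) (ball c₀ ε ×ˢ ball z₀ ε)) ∧
    DifferentiableOn ℂ B (ball c₀ ε ×ˢ ball z₀ ε) ∧
    ∀ c ∈ ball c₀ ε, ∀ α ∈ ball z₀ ε, ∀ σ : ℂ → ℂ,
      (∀ u, σ u = u ^ q * (1 + u * ∑ j ∈ Finset.range M, e j (c, α) * u ^ j)) → ∀ u : ℂ,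
        σ (G d m c (α + u) - G d m c α) = mu d m c α ^ q * σ u + B (c, α) * σ u ^ 2 +
          u ^ (2 * q + 1) * ∑ j ∈ Finset.range M, E j (c, α) * u ^ j

/-- the normal form -/
def S_NF : Prop := ∀ (d m q : ℕ) (c₀ z₀ : ℂ), PD d m q c₀ z₀ → ∃ s b ρ ε C, NF d m q c₀ z₀ s b ρ ε C

/-- the constant `b` is not zero -/
def S_B0 : Prop := ∀ (d m q : ℕ) (c₀ z₀ : ℂ) (s : ℂ → ℂ → ℂ → ℂ) (b : ℂ → ℂ → ℂ) (ρ ε C : ℝ)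
  (a : ℂ → ℂ), PD d m q c₀ z₀ → NF d m q c₀ z₀ s b ρ ε C → Germ d m q c₀ z₀ a → b c₀ z₀ ≠ 0

/-! ## C. Dynamics in the coordinate `T = 1 / s` -/

/-- the abstract comparison lemma -/
def S_BOOT : Prop := ∀ (n k₀ : ℕ) (T : ℕ → ℂ) (L b : ℂ) (K : ℝ) (h e : ℕ → ℝ) (Gd : ℕ → Prop),
  (∀ j, j ≤ n → ‖L‖ ^ j ≤ K) → (∀ j, 0 ≤ e j) → k₀ ≤ n → Gd k₀ →
  (∀ k, k₀ ≤ k → k < n → Gd k → h k ≤ ‖T k‖ →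
    ‖T (k + 1) - (L * T k - b)‖ ≤ e k ∧ (h (k + 1) ≤ ‖T (k + 1)‖ → Gd (k + 1))) →
  (∀ k, k₀ ≤ k → k ≤ n → h k + K * (‖T k₀ + b * gs L k₀‖ + ∑ j ∈ Finset.Ico k₀ k, e j) ≤
    ‖b * gs L k‖) →
  ∀ k, k₀ ≤ k → k ≤ n → Gd k ∧ h k ≤ ‖T k‖ ∧
    ‖T k + b * gs L k‖ ≤ K * (‖T k₀ + b * gs L k₀‖ + ∑ j ∈ Finset.Ico k₀ k, e j)

/-- geometric sums before the first return -/
def S_GEOM : Prop := ∀ δ : ℝ, 0 < δ → ∃ c₁ r₁ : ℝ, 0 < c₁ ∧ 0 < r₁ ∧ ∀ θ : ℂ, ‖θ‖ ≤ r₁ → ∀ k : ℕ,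
  k * ‖θ‖ ≤ 2 * Real.pi - δ → c₁ * k ≤ ‖gs (1 - θ) k‖

/-- the boundary of the rectangle `[-δ, δ] × [2π - δ, 2π + δ]` -/
def Bd (δ : ℝ) : Set ℂ := {x : ℂ | |x.re| ≤ δ ∧ |x.im - 2 * Real.pi| ≤ δ ∧
  (|x.re| = δ ∨ |x.im - 2 * Real.pi| = δ)}

/-- the distance from the top point `i (2π + δ)` -/
noncomputable def xi (δ : ℝ) (x : ℂ) : ℝ := ‖x - ((2 * Real.pi + δ : ℝ) : ℂ) * I‖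

/-- geometric sums for `θ = x / n`, `x` on the boundary of the rectangle -/
def S_GEOM2 : Prop := ∀ δ : ℝ, 0 < δ → δ < 1 → ∃ (c₁ C₁ : ℝ) (n₁ : ℕ), 0 < c₁ ∧ 0 < C₁ ∧
  ∀ n : ℕ, n₁ ≤ n → ∀ x ∈ Bd δ,
    (∀ k : ℕ, 2 * k ≤ n → c₁ * k ≤ ‖gs (1 - x / n) k‖) ∧
    (∀ k : ℕ, n ≤ 2 * k → k ≤ n → C₁ ≤ n * xi δ x → c₁ * n * xi δ x ≤ ‖gs (1 - x / n) k‖) ∧
    c₁ * n ≤ ‖gs (1 - x / n) n‖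

/-- geometric sums at the point `i (2π - κ)` -/
def S_GEOM3 : Prop := ∀ κ : ℝ, 0 < κ → κ < 1 / 2 → ∃ n₁ : ℕ, ∀ n : ℕ, n₁ ≤ n → ∀ x : ℂ,
  x = ((2 * Real.pi - κ : ℝ) : ℂ) * I → ‖gs (1 - x / n) n‖ ≤ κ / 3 * n

/-- the initial condition -/
def S_INIT : Prop := ∀ (d m q : ℕ) (c₀ z₀ : ℂ) (s : ℂ → ℂ → ℂ → ℂ) (b : ℂ → ℂ → ℂ) (ρ ε C : ℝ)
  (N₀ : ℕ), PD d m q c₀ z₀ → NF d m q c₀ z₀ s b ρ ε C → Orb d m c₀ z₀ N₀ →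
  ∀ (η : ℝ) (K₁ : ℕ), 0 < η → ∃ (k₀ : ℕ) (ε₁ : ℝ), K₁ ≤ k₀ ∧ 0 < ε₁ ∧ ε₁ ≤ ε ∧
    ∀ c ∈ ball c₀ ε₁, ∀ α ∈ ball z₀ ε₁,
      P d (N₀ + m * k₀) c - α ≠ 0 ∧ ‖P d (N₀ + m * k₀) c - α‖ ≤ ρ ∧
      ‖(s c α (P d (N₀ + m * k₀) c - α))⁻¹ + b c α * gs (Lq d m q c α) k₀‖ ≤ η * k₀

/-- the orbit is bounded before the first return -/
def S_UPPER : Prop := ∀ (d m q : ℕ) (c₀ z₀ : ℂ) (s : ℂ → ℂ → ℂ → ℂ) (b : ℂ → ℂ → ℂ) (ρ ε C : ℝ)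
  (N₀ : ℕ), PD d m q c₀ z₀ → NF d m q c₀ z₀ s b ρ ε C → b c₀ z₀ ≠ 0 → Orb d m c₀ z₀ N₀ →
  ∀ δ : ℝ, 0 < δ → ∃ (ε₁ : ℝ) (n₁ : ℕ), 0 < ε₁ ∧
    ∀ c ∈ ball c₀ ε₁, ∀ α ∈ ball z₀ ε₁, G d m c α = α → ∀ n : ℕ, n₁ ≤ n →
      n * ‖1 - Lq d m q c α‖ ≤ 2 * Real.pi - δ → ‖P d (N₀ + m * n) c - α‖ ≤ 1 / 4

/-- the orbit on the boundary of the rectangle -/
def S_EDGE : Prop := ∀ (d m q : ℕ) (c₀ z₀ : ℂ) (s : ℂ → ℂ → ℂ → ℂ) (b : ℂ → ℂ → ℂ) (ρ ε C : ℝ)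
  (N₀ : ℕ), PD d m q c₀ z₀ → NF d m q c₀ z₀ s b ρ ε C → b c₀ z₀ ≠ 0 → Orb d m c₀ z₀ N₀ →
  ∀ δ : ℝ, 0 < δ → δ < 1 → ∃ (ε₁ C₃ : ℝ) (n₁ : ℕ), 0 < ε₁ ∧ ε₁ ≤ ε ∧ 0 < C₃ ∧
    ∀ c ∈ ball c₀ ε₁, ∀ α ∈ ball z₀ ε₁, G d m c α = α → ∀ n : ℕ, n₁ ≤ n → ∀ x ∈ Bd δ,
      1 ≤ n * xi δ x ^ (4 * q) → 1 - Lq d m q c α = x / n →
        n * ‖s c α (P d (N₀ + m * n) c - α)‖ ≤ C₃

/-- the orbit at the point `i (2π - κ)` -/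
def S_PT : Prop := ∀ (d m q : ℕ) (c₀ z₀ : ℂ) (s : ℂ → ℂ → ℂ → ℂ) (b : ℂ → ℂ → ℂ) (ρ ε C : ℝ)
  (N₀ : ℕ), PD d m q c₀ z₀ → NF d m q c₀ z₀ s b ρ ε C → b c₀ z₀ ≠ 0 → Orb d m c₀ z₀ N₀ →
  ∀ κ : ℝ, 0 < κ → κ < 1 / 2 → ∃ (ε₁ : ℝ) (n₁ : ℕ), 0 < ε₁ ∧ ε₁ ≤ ε ∧
    ∀ c ∈ ball c₀ ε₁, ∀ α ∈ ball z₀ ε₁, G d m c α = α → ∀ n : ℕ, n₁ ≤ n → ∀ x : ℂ,
      x = ((2 * Real.pi - κ : ℝ) : ℂ) * I → 1 - Lq d m q c α = x / n →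
        1 ≤ ‖b c₀ z₀‖ * κ * n * ‖s c α (P d (N₀ + m * n) c - α)‖

/-! ## D. The parameter near `c₀` -/

/-- periodic points are repelling for large `c` -/
def S_REPEL : Prop := ∀ (d m : ℕ), 2 ≤ d → 1 ≤ m → ∀ c z : ℂ, 6 ≤ ‖c‖ → G d m c z = z →
  1 < ‖mu d m c z‖

/-- finitely many parameters -/
def S_FIN : Prop := ∀ (d m : ℕ), 2 ≤ d → 1 ≤ m → ∀ l₀ : ℂ, ‖l₀‖ ≤ 1 →
  {c : ℂ | ∃ z, G d m c z = z ∧ mu d m c z = l₀}.Finite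

/-- the implicit function theorem for holomorphic functions of two variables -/
def S_IFT : Prop := ∀ (F : ℂ × ℂ → ℂ) (x₀ y₀ : ℂ), AnalyticAt ℂ F (x₀, y₀) → F (x₀, y₀) = 0 →
  deriv (fun y => F (x₀, y)) y₀ ≠ 0 → ∃ (δ η : ℝ) (y : ℂ → ℂ), 0 < δ ∧ 0 < η ∧
    DifferentiableOn ℂ y (ball x₀ δ) ∧ y x₀ = y₀ ∧ (∀ x ∈ ball x₀ δ, F (x, y x) = 0) ∧
    ∀ x ∈ ball x₀ δ, ∀ y' ∈ ball y₀ η, F (x, y') = 0 → y' = y x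

/-- reparametrisation -/
def S_REP : Prop := ∀ h : ℂ → ℂ, AnalyticAt ℂ h 0 → h 0 = 0 → (¬ ∀ᶠ t in 𝓝 (0 : ℂ), h t = 0) →
  ∀ r : ℝ, 0 < r → ∃ (e : ℕ) (δ : ℝ) (t : ℂ → ℂ), 1 ≤ e ∧ 0 < δ ∧
    DifferentiableOn ℂ t (ball 0 δ) ∧ t 0 = 0 ∧ ∀ τ ∈ ball (0 : ℂ) δ, t τ ∈ ball (0 : ℂ) r ∧
      h (t τ) = τ ^ e

/-- the iterates depend analytically on the parameter and the point -/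
def S_ANA : Prop := ∀ (d m : ℕ) (c z : ℂ), AnalyticAt ℂ (fun p : ℂ × ℂ => G d m p.1 p.2) (c, z) ∧
  AnalyticAt ℂ (fun p : ℂ × ℂ => mu d m p.1 p.2) (c, z)

/-- a curve of fixed points -/
def Curve (d m : ℕ) (c₀ z₀ : ℂ) : Prop := ∃ (δ : ℝ) (cc aa : ℂ → ℂ), 0 < δ ∧
  DifferentiableOn ℂ cc (ball 0 δ) ∧ DifferentiableOn ℂ aa (ball 0 δ) ∧ cc 0 = c₀ ∧ aa 0 = z₀ ∧
  (∀ t ∈ ball (0 : ℂ) δ, G d m (cc t) (aa t) = aa t) ∧ ∀ t ∈ ball (0 : ℂ) δ, t ≠ 0 → cc t ≠ c₀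

def S_SEC2 : Prop := ∀ (d m : ℕ) (c₀ z₀ : ℂ), 2 ≤ d → 1 ≤ m → G d m c₀ z₀ = z₀ →
  mu d m c₀ z₀ ≠ 1 → Curve d m c₀ z₀

def S_SEC1 : Prop := ∀ (d m : ℕ) (c₀ z₀ : ℂ) (a : ℂ → ℂ), 2 ≤ d → 1 ≤ m → G d m c₀ z₀ = z₀ →
  mu d m c₀ z₀ = 1 → Germ d m 1 c₀ z₀ a → Curve d m c₀ z₀

/-- the curve parametrised by a root of `1 - Lq` -/
def S_SEC : Prop := ∀ (d m q : ℕ) (c₀ z₀ : ℂ), PD d m q c₀ z₀ → Curve d m c₀ z₀ →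
  ∃ (e : ℕ) (δ : ℝ) (cc aa : ℂ → ℂ), 1 ≤ e ∧ 0 < δ ∧
    DifferentiableOn ℂ cc (ball 0 δ) ∧ DifferentiableOn ℂ aa (ball 0 δ) ∧ cc 0 = c₀ ∧ aa 0 = z₀ ∧
    ∀ t ∈ ball (0 : ℂ) δ, G d m (cc t) (aa t) = aa t ∧
      1 - Lq d m q (cc t) (aa t) = t ^ e

/-- `(c₀, z₀)` is isolated -/
def S_ISO : Prop := ∀ (d m q : ℕ) (c₀ z₀ : ℂ), PD d m q c₀ z₀ → ∃ ε₀ : ℝ, 0 < ε₀ ∧ ∀ η : ℝ, 0 < η →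
  ∃ r : ℝ, 0 < r ∧ ∀ c ∈ closedBall c₀ ε₀, ∀ α ∈ closedBall z₀ ε₀, G d m c α = α →
    ‖mu d m c α - mu d m c₀ z₀‖ ≤ r → ‖c - c₀‖ < η ∧ ‖α - z₀‖ < η

/-- comparison of `1 - λ ^ (-q)` and `λ - λ₀` -/
def S_MUL : Prop := ∀ (q : ℕ) (l₀ : ℂ), 1 ≤ q → l₀ ^ q = 1 → ∀ δ : ℝ, 0 < δ → ∃ r : ℝ, 0 < r ∧
  ∀ l : ℂ, ‖l - l₀‖ ≤ r → (1 - δ) * (q * ‖l - l₀‖) ≤ ‖1 - (l ^ q)⁻¹‖ ∧
    ‖1 - (l ^ q)⁻¹‖ ≤ (1 + δ) * (q * ‖l - l₀‖)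

/-! ## E. Escape after the first return -/

/-- a maximum principle on the rectangle -/
def S_MAXP : Prop := ∀ δ : ℝ, 0 < δ → δ < 1 → ∀ (M n : ℕ) (C : ℝ) (F : ℂ → ℂ), 0 ≤ C → 1 ≤ n →
  DiffContOnCl ℂ F {x : ℂ | |x.re| < δ ∧ |x.im - 2 * Real.pi| < δ} →
  (∀ x ∈ Bd δ, ‖F x‖ ≤ C * n) → (∀ x ∈ Bd δ, 1 ≤ n * xi δ x ^ M → ‖F x‖ ≤ C) →
    ∀ x : ℂ, |x.re| < δ → |x.im - 2 * Real.pi| < δ → ‖F x‖ * xi δ x ^ M ≤ C * 3 ^ M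

/-- some orbit escapes soon after the first return -/
def S_LOWER : Prop := ∀ (d m q : ℕ) (c₀ z₀ : ℂ) (s : ℂ → ℂ → ℂ → ℂ) (b : ℂ → ℂ → ℂ) (ρ ε C : ℝ)
  (N₀ : ℕ), PD d m q c₀ z₀ → NF d m q c₀ z₀ s b ρ ε C → b c₀ z₀ ≠ 0 → Orb d m c₀ z₀ N₀ →
  Curve d m c₀ z₀ → ∀ δ ε' : ℝ, 0 < δ → 0 < ε' → ∃ n₁ : ℕ, ∀ n : ℕ, n₁ ≤ n →
    ∃ c ∈ ball c₀ ε', ∃ α ∈ ball z₀ ε', G d m c α = α ∧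
      n * ‖1 - Lq d m q c α‖ ≤ 2 * Real.pi + δ ∧ 3 < ‖P d (N₀ + m * n) c‖

/-! ## F. The exterior map -/

/-- upper bound of the escape rate when the orbit stays bounded for a long time -/
def S_GU : Prop := ∀ (d : ℕ), 2 ≤ d → ∀ ψ : ℂ → ℂ, IsExteriorMap (multibrotSet d) ψ → ∀ z : ℂ,
  1 < ‖z‖ → ∀ n : ℕ, ‖ψ z‖ ≤ 3 → ‖P d (n + 1) (ψ z)‖ ≤ 3 → ‖z‖ ^ (d ^ n) ≤ 4

/-- the values of `‖w‖ - 1` over the parameters at multiplier distance `≤ r` -/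
def Sr (d m : ℕ) (ψ : ℂ → ℂ) (c₀ z₀ : ℂ) (ε r : ℝ) : Set ℝ :=
  {h : ℝ | ∃ w α : ℂ, 1 < ‖w‖ ∧ h = ‖w‖ - 1 ∧ ‖ψ w - c₀‖ ≤ ε ∧ ‖α - z₀‖ ≤ ε ∧
    G d m (ψ w) α = α ∧ ‖mu d m (ψ w) α - mu d m c₀ z₀‖ ≤ r}

/-- what the dynamics gives -/
def Dyn (d m q : ℕ) (c₀ z₀ : ℂ) (N₀ : ℕ) : Prop :=
  (∀ δ : ℝ, 0 < δ → ∃ (ε₁ : ℝ) (n₁ : ℕ), 0 < ε₁ ∧
    ∀ c ∈ ball c₀ ε₁, ∀ α ∈ ball z₀ ε₁, G d m c α = α → ∀ n : ℕ, n₁ ≤ n →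
      n * ‖1 - Lq d m q c α‖ ≤ 2 * Real.pi - δ → ‖P d (N₀ + m * n) c‖ ≤ 3) ∧
  (∀ δ ε' : ℝ, 0 < δ → 0 < ε' → ∃ n₁ : ℕ, ∀ n : ℕ, n₁ ≤ n →
    ∃ c ∈ ball c₀ ε', ∃ α ∈ ball z₀ ε', G d m c α = α ∧
      n * ‖1 - Lq d m q c α‖ ≤ 2 * Real.pi + δ ∧ 3 < ‖P d (N₀ + m * n) c‖)

/-- the two bounds for the escape rate -/
def Rates (d m q : ℕ) (c₀ z₀ : ℂ) (ε₀ : ℝ) : Prop := 0 < ε₀ ∧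
  (∀ δ : ℝ, 0 < δ → ∃ r₀ : ℝ, 0 < r₀ ∧ ∀ ψ : ℂ → ℂ, IsExteriorMap (multibrotSet d) ψ →
    ∀ w α : ℂ, 1 < ‖w‖ → ‖ψ w - c₀‖ ≤ ε₀ → ‖α - z₀‖ ≤ ε₀ → G d m (ψ w) α = α →
      ‖mu d m (ψ w) α - mu d m c₀ z₀‖ ≤ r₀ →
        2 * Real.pi * m * Real.log d / q - δ ≤
          ‖mu d m (ψ w) α - mu d m c₀ z₀‖ * Real.log (1 / (‖w‖ - 1))) ∧
  (∀ δ ε' : ℝ, 0 < δ → 0 < ε' → ∃ r₀ : ℝ, 0 < r₀ ∧ ∀ r : ℝ, 0 < r → r ≤ r₀ →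
    ∀ ψ : ℂ → ℂ, IsExteriorMap (multibrotSet d) ψ → ∃ w α : ℂ, 1 < ‖w‖ ∧ ‖ψ w - c₀‖ ≤ ε' ∧
      ‖α - z₀‖ ≤ ε' ∧ G d m (ψ w) α = α ∧ ‖mu d m (ψ w) α - mu d m c₀ z₀‖ ≤ r ∧
        r * Real.log (1 / (‖w‖ - 1)) ≤ 2 * Real.pi * m * Real.log d / q + δ)

def S_RATES : Prop := ∀ (d m q : ℕ) (c₀ z₀ : ℂ) (N₀ : ℕ), PD d m q c₀ z₀ →
  c₀ ∈ multibrotSet d → 1 ≤ N₀ → Dyn d m q c₀ z₀ N₀ → ∃ ε₀, Rates d m q c₀ z₀ ε₀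

/-! ## G. The contact law -/

/-- the law in the scale of the multiplier -/
def S_LAW : Prop := ∀ (d m q : ℕ) (c₀ z₀ : ℂ) (ε₀ : ℝ), PD d m q c₀ z₀ → Rates d m q c₀ z₀ ε₀ →
  ∀ ψ : ℂ → ℂ, IsExteriorMap (multibrotSet d) ψ → ∀ ε' : ℝ, 0 < ε' → ε' ≤ ε₀ →
    Tendsto (fun r : ℝ => r * Real.log (1 / sSup (Sr d m ψ c₀ z₀ ε' r))) (𝓝[>] 0)
      (𝓝 (2 * Real.pi * m * Real.log d / q))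

/-- a continuous extension of the exterior map -/
def S_EXT : Prop := ∀ (d m q : ℕ) (c₀ z₀ : ℂ) (ε₀ : ℝ), PD d m q c₀ z₀ → Rates d m q c₀ z₀ ε₀ →
  ∀ ψ F : ℂ → ℂ, IsExteriorMap (multibrotSet d) ψ → ContinuousOn F {w : ℂ | 1 ≤ ‖w‖} →
    (∀ w : ℂ, 1 < ‖w‖ → F w = ψ w) →
    (∀ ζ : ℂ, ‖ζ‖ = 1 → F ζ = c₀ → ∀ δ : ℝ, 0 < δ → ∃ η : ℝ, 0 < η ∧ ∀ w : ℂ, 1 < ‖w‖ →
      ‖w - ζ‖ < η → ∀ α : ℂ, ‖α - z₀‖ ≤ ε₀ → G d m (ψ w) α = α →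
        2 * Real.pi * m * Real.log d / q - δ ≤
          ‖mu d m (ψ w) α - mu d m c₀ z₀‖ * Real.log (1 / (‖w‖ - 1))) ∧
    ∃ ζ : ℂ, ‖ζ‖ = 1 ∧ F ζ = c₀ ∧ ∀ δ η : ℝ, 0 < δ → 0 < η → ∃ w α : ℂ, 1 < ‖w‖ ∧
      ‖w - ζ‖ < η ∧ ‖α - z₀‖ < η ∧ G d m (ψ w) α = α ∧
        ‖mu d m (ψ w) α - mu d m c₀ z₀‖ * Real.log (1 / (‖w‖ - 1)) ≤
          2 * Real.pi * m * Real.log d / q + δ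

/-- the values of `‖w‖ - 1` over the parameters at distance `≤ ρ` -/
def Dr (ψ : ℂ → ℂ) (c₀ : ℂ) (ρ : ℝ) : Set ℝ :=
  {h : ℝ | ∃ w : ℂ, 1 < ‖w‖ ∧ h = ‖w‖ - 1 ∧ ‖ψ w - c₀‖ ≤ ρ}

/-- the law in the scale of the parameter, satellite case -/
def S_CSC : Prop := ∀ (d m q : ℕ) (c₀ z₀ : ℂ) (ε₀ : ℝ), PD d m q c₀ z₀ → Rates d m q c₀ z₀ ε₀ →
  mu d m c₀ z₀ ≠ 1 → ∀ (al : ℂ → ℂ) (κ : ℂ), ContinuousAt al c₀ → al c₀ = z₀ →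
    (∀ᶠ c in 𝓝 c₀, G d m c (al c) = al c) → HasDerivAt (fun c => mu d m c (al c)) κ c₀ → κ ≠ 0 →
      ∀ ψ : ℂ → ℂ, IsExteriorMap (multibrotSet d) ψ →
        Tendsto (fun ρ : ℝ => ρ * Real.log (1 / sSup (Dr ψ c₀ ρ))) (𝓝[>] 0)
          (𝓝 (2 * Real.pi * m * Real.log d / (q * ‖κ‖)))

/-- the satellite parameters on the boundary of the main component -/
def S_CARD : Prop := ∀ (d q : ℕ) (z₀ : ℂ) (ε₀ : ℝ), 2 ≤ d → 2 ≤ q →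
  IsPrimitiveRoot ((d : ℂ) * z₀ ^ (d - 1)) q → Rates d 1 q (z₀ - z₀ ^ d) z₀ ε₀ →
    ∀ ψ : ℂ → ℂ, IsExteriorMap (multibrotSet d) ψ →
      Tendsto (fun ρ : ℝ => ρ * Real.log (1 / sSup (Dr ψ (z₀ - z₀ ^ d) ρ))) (𝓝[>] 0)
        (𝓝 (2 * Real.pi * Real.log d / q * (‖1 - (d : ℂ) * z₀ ^ (d - 1)‖ * ‖z₀‖ / (d - 1))))

/-- the cusps of the main component -/
def S_CUSP : Prop := ∀ (d : ℕ) (z₀ : ℂ) (ε₀ : ℝ), 2 ≤ d → (d : ℂ) * z₀ ^ (d - 1) = 1 →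
  Rates d 1 1 (z₀ - z₀ ^ d) z₀ ε₀ → ∀ ψ : ℂ → ℂ, IsExteriorMap (multibrotSet d) ψ →
    Tendsto (fun ρ : ℝ => √ρ * Real.log (1 / sSup (Dr ψ (z₀ - z₀ ^ d) ρ))) (𝓝[>] 0)
      (𝓝 (2 * Real.pi * Real.log d * √(‖z₀‖ / (2 * (d - 1)))))

end Pool.Agent.Y811.PC
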