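import Pool.Agent.Y811.PC.Stm2

set_option autoImplicit false

/-! # The parabolic contact law: harmonic measure -/

namespace Pool.Agent.Y811.PC

open Complex Metric Set Filter Topology Pool.Agent.H712R2 Pool.Agent.H713R2 N62a1eb23

/-- the proportion of the circle of radius `r` which `ψ` maps to the closed disc of radius `ρ`
about `c₀` -/
noncomputable def mr (ψ : ℂ → ℂ) (c₀ : ℂ) (ρ r : ℝ) : ℝ :=
  (MeasureTheory.volume {θ : ℝ | 0 < θ ∧ θ ≤ 2 * Real.pi ∧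
    ‖ψ (r * Complex.exp (θ * I)) - c₀‖ ≤ ρ}).toReal / (2 * Real.pi)

/-- circle averages of `log ‖ψ - z‖` -/
def S_HM1 : Prop := ∀ (d : ℕ), 2 ≤ d → ∀ ψ : ℂ → ℂ, IsExteriorMap (multibrotSet d) ψ → ∀ r : ℝ,
  1 < r → (∀ z ∈ multibrotSet d,
    Real.circleAverage (fun x => Real.log ‖ψ (r * x) - z‖) 0 1 = Real.log r) ∧
  ∀ w : ℂ, 1 < ‖w‖ →
    Real.circleAverage (fun x => Real.log ‖ψ (r * x) - ψ w‖) 0 1 = Real.log (max r ‖w‖)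

/-- Jensen and Cartan: the mean of `log⁺ (R / ‖ψ - c₀‖)` is at most the escape rate near `c₀` -/
def S_HM2 : Prop := ∀ (d : ℕ), 2 ≤ d → ∀ ψ : ℂ → ℂ, IsExteriorMap (multibrotSet d) ψ →
  ∀ (c₀ : ℂ) (r R H : ℝ), c₀ ∈ multibrotSet d → 1 < r → 0 < R → 1 ≤ H →
    (∀ w : ℂ, 1 < ‖w‖ → ‖ψ w - c₀‖ ≤ R → ‖w‖ ≤ H) →
      Real.circleAverage (fun x => max 0 (Real.log (R / ‖ψ (r * x) - c₀‖))) 0 1 ≤ Real.log H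

/-- Poisson: a point of the exterior near `c₀` sees the part of the circle mapped near `c₀` -/
def S_HM3 : Prop := ∀ (d : ℕ), 2 ≤ d → ∀ ψ : ℂ → ℂ, IsExteriorMap (multibrotSet d) ψ →
  ∀ (c₀ w : ℂ) (r ρ : ℝ), c₀ ∈ multibrotSet d → 1 < r → r < ‖w‖ → 0 < ρ →
    Real.log (ρ / ‖ψ w - c₀‖) ≤ (‖w‖ + r) / (‖w‖ - r) *
      Real.circleAverage (fun x => max 0 (Real.log (ρ / ‖ψ (r * x) - c₀‖))) 0 1

/-- the law for harmonic measure -/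
def S_HM : Prop := ∀ (d : ℕ) (c₀ : ℂ) (p A : ℝ), 2 ≤ d → c₀ ∈ multibrotSet d → 0 < p → 0 < A →
  ∀ ψ : ℂ → ℂ, IsExteriorMap (multibrotSet d) ψ →
    Tendsto (fun ρ : ℝ => ρ ^ p * Real.log (1 / sSup (Dr ψ c₀ ρ))) (𝓝[>] 0) (𝓝 A) →
      ∀ δ : ℝ, 0 < δ → ∃ ρ₀ : ℝ, 0 < ρ₀ ∧ ∀ ρ : ℝ, 0 < ρ → ρ < ρ₀ → ∃ r₀ : ℝ, 1 < r₀ ∧
        ∀ r : ℝ, 1 < r → r < r₀ → Real.exp (-(A + δ) / ρ ^ p) ≤ mr ψ c₀ ρ r ∧
          mr ψ c₀ ρ r ≤ Real.exp (-(A - δ) / ρ ^ p)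

end Pool.Agent.Y811.PC
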