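import Pool.Agent.Y811.PC.Asm
import Pool.Agent.Y356.PC.Root
import Pool.Agent.Y484.PC.Pet
import Pool.Agent.Y297.PC.Dir
import Pool.Agent.Y419.PC.Nule
import Pool.Agent.Y48.PC.Nuge
import Pool.Agent.Y349.PC.Fatou
import Pool.Agent.Y151.PC.NFALG
import Pool.Agent.Y297.PC.Nfa
import Pool.Agent.Y331.PC.NFe
import Pool.Agent.Y331.PC.B0
import Pool.Agent.Y658.PC.Boot
import Pool.Agent.Y458.PC.GeomT
import Pool.Agent.Y48.PC.Init
import Pool.Agent.Y350.PC.Upper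
import Pool.Agent.Y350.PC.Edge
import Pool.Agent.Y70.PC.Pt
import Pool.Agent.Y888.PC.Repel
import Pool.Agent.Y510.PC.Fin
import Pool.Agent.Y475.PC.IFT
import Pool.Agent.Y185.PC.Rep
import Pool.Agent.Y592.PC.SEC2
import Pool.Agent.Y475.PC.SEC1
import Pool.Agent.Y510.PC.Sec
import Pool.Agent.Y185.PC.Iso
import Pool.Agent.Y165.PC.Mul
import Pool.Agent.Y983.PC.Maxp
import Pool.Agent.Y587.PC.Lower
import Pool.Agent.Y167.PC.Rates
import Pool.Agent.Y151.PC.LAW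
import Pool.Agent.Y151.PC.EXT
import Pool.Agent.Y366.PC.Csc
import Pool.Agent.Y274.PC.Card
import Pool.Agent.Y429.PC.CUSP

set_option autoImplicit false

/-! # The parabolic contact law: all parts of phase 1 -/

namespace Pool.Agent.Y811.PC

open Complex Metric Set Filter Topology Pool.Agent.H712R2 Pool.Agent.H713R2 N62a1eb23

theorem hANA : S_ANA := Pool.Agent.Y888.PC.t_ANA
theorem hBRANCH : S_BRANCH := Pool.Agent.Y356.PC.t_BRANCH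
theorem hPET : S_PET := Pool.Agent.Y484.PC.t_PET hBRANCH
theorem hDIR : S_DIR := Pool.Agent.Y297.PC.t_DIR
theorem hNULE : S_NULE := Pool.Agent.Y419.PC.t_NULE hPET hDIR
theorem hNUGE : S_NUGE := Pool.Agent.Y48.PC.t_NUGE
theorem hFATOU : S_FATOU := Pool.Agent.Y349.PC.t_FATOU hPET hNULE hNUGE
theorem hNFALG : S_NFALG := Pool.Agent.Y151.PC.t_NFALG
theorem hNFA : S_NFA := Pool.Agent.Y297.PC.t_NFA hNFALG hANA
theorem hNF : S_NF := Pool.Agent.Y331.PC.t_NF hNFA hANA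
theorem hB0 : S_B0 := Pool.Agent.Y331.PC.t_B0
theorem hBOOT : S_BOOT := Pool.Agent.Y658.PC.t_BOOT
theorem hGEOM : S_GEOM := Pool.Agent.Y458.PC.t_GEOM
theorem hGEOM2 : S_GEOM2 := Pool.Agent.Y458.PC.t_GEOM2
theorem hGEOM3 : S_GEOM3 := Pool.Agent.Y458.PC.t_GEOM3
theorem hINIT : S_INIT := Pool.Agent.Y48.PC.t_INIT hANA
theorem hUPPER : S_UPPER := Pool.Agent.Y350.PC.t_UPPER hBOOT hGEOM hINIT hANA
theorem hEDGE : S_EDGE := Pool.Agent.Y350.PC.t_EDGE hBOOT hGEOM2 hINIT hANA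
theorem hPT : S_PT := Pool.Agent.Y70.PC.t_PT hBOOT hGEOM hGEOM3 hINIT hANA
theorem hREPEL : S_REPEL := Pool.Agent.Y888.PC.t_REPEL
theorem hFIN : S_FIN := Pool.Agent.Y510.PC.t_FIN hREPEL
theorem hIFT : S_IFT := Pool.Agent.Y475.PC.t_IFT
theorem hREP : S_REP := Pool.Agent.Y185.PC.t_REP
theorem hSEC2 : S_SEC2 := Pool.Agent.Y592.PC.t_SEC2 hIFT hANA
theorem hSEC1 : S_SEC1 := Pool.Agent.Y475.PC.t_SEC1 hIFT hFIN hANA
theorem hSEC : S_SEC := Pool.Agent.Y510.PC.t_SEC hFIN hREP hANA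
theorem hISO : S_ISO := Pool.Agent.Y185.PC.t_ISO hFIN hANA
theorem hMUL : S_MUL := Pool.Agent.Y165.PC.t_MUL
theorem hMAXP : S_MAXP := Pool.Agent.Y983.PC.t_MAXP
theorem hLOWER : S_LOWER := Pool.Agent.Y587.PC.t_LOWER hSEC hEDGE hPT hMAXP hANA
theorem hRATES (hGU : S_GU) : S_RATES := Pool.Agent.Y167.PC.t_RATES hGU hISO hMUL hANA
theorem hLAW : S_LAW := Pool.Agent.Y151.PC.t_LAW
theorem hEXT : S_EXT := Pool.Agent.Y151.PC.t_EXT
theorem hCSC : S_CSC := Pool.Agent.Y366.PC.t_CSC hIFT hANA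
theorem hCARD : S_CARD := Pool.Agent.Y274.PC.Card.t_CARD hCSC hIFT hANA
theorem hCUSP : S_CUSP := Pool.Agent.Y429.PC.CUSP.t_CUSP hANA

theorem rates_gu (hGU : S_GU) {d m q : ℕ} {c₀ z₀ : ℂ} (h : PD d m q c₀ z₀) :
    ∃ ε₀, Rates d m q c₀ z₀ ε₀ :=
  rates_all hFATOU hNF hB0 hUPPER hSEC1 hSEC2 hLOWER (hRATES hGU) h

end Pool.Agent.Y811.PC
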