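import Pool.Agent.Y811.PC.Stm

set_option autoImplicit false

/-! # The parabolic contact law: assembly -/

namespace Pool.Agent.Y811.PC

open Complex Metric Set Filter Topology Pool.Agent.H712R2 Pool.Agent.H713R2 N62a1eb23

/-- from the parts to the two bounds for the escape rate -/
theorem rates_all (hFat : S_FATOU) (hNF : S_NF) (hB0 : S_B0) (hUp : S_UPPER) (hSec1 : S_SEC1)
    (hSec2 : S_SEC2) (hLow : S_LOWER) (hRat : S_RATES) {d m q : ℕ} {c₀ z₀ : ℂ}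
    (h : PD d m q c₀ z₀) : ∃ ε₀, Rates d m q c₀ z₀ ε₀ := by
  obtain ⟨⟨a, ha⟩, ⟨N₀, hN₀, horb⟩, hmem, hz₀⟩ := hFat d m q c₀ z₀ h
  obtain ⟨s, b, ρ, ε, C, hnf⟩ := hNF d m q c₀ z₀ h
  have hb := hB0 d m q c₀ z₀ s b ρ ε C a h hnf ha
  have hcurve : Curve d m c₀ z₀ := by
    by_cases h1 : mu d m c₀ z₀ = 1
    · have hq1 : q = 1 := by
        have := h.mul
        rw [h1] at this
        exact this.unique IsPrimitiveRoot.one
      subst hq1
      exact hSec1 d m c₀ z₀ a h.hd h.hm h.fix h1 ha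
    · exact hSec2 d m c₀ z₀ h.hd h.hm h.fix h1
  have hdyn : Dyn d m q c₀ z₀ N₀ := by
    refine ⟨?_, hLow d m q c₀ z₀ s b ρ ε C N₀ h hnf hb horb hcurve⟩
    intro δ hδ
    obtain ⟨ε₁, n₁, hε₁, h1⟩ := hUp d m q c₀ z₀ s b ρ ε C N₀ h hnf hb horb δ hδ
    refine ⟨min ε₁ (1 / 2), n₁, lt_min hε₁ (by norm_num), ?_⟩
    intro c hc α hα hfix n hn hnn
    have hc' : c ∈ ball c₀ ε₁ := ball_subset_ball (min_le_left _ _) hc
    have hα' : α ∈ ball z₀ ε₁ := ball_subset_ball (min_le_left _ _) hα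
    have h2 := h1 c hc' α hα' hfix n hn hnn
    have h3 : ‖α - z₀‖ < 1 / 2 := by
      rw [mem_ball_iff_norm] at hα
      exact hα.trans_le (min_le_right _ _)
    have h4 : P d (N₀ + m * n) c = (P d (N₀ + m * n) c - α) + (α - z₀) + z₀ := by ring
    rw [h4]
    have h5 := norm_add_le ((P d (N₀ + m * n) c - α) + (α - z₀)) z₀
    have h6 := norm_add_le (P d (N₀ + m * n) c - α) (α - z₀)
    linarith
  exact hRat d m q c₀ z₀ N₀ h hmem hN₀ hdyn

end Pool.Agent.Y811.PC
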