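import Pool.Agent.Y811.PC.Asm

set_option autoImplicit false

/-! # The parabolic contact law in explicit form -/

namespace Pool.Agent.Y811.PC

open Complex Metric Set Filter Topology Pool.Agent.H712R2 Pool.Agent.H713R2 N62a1eb23

/-- the contact law at one parabolic parameter -/
theorem law_one (hLaw : S_LAW) (hExt : S_EXT) (hCsc : S_CSC)
    (hR : ∀ {d m q : ℕ} {c₀ z₀ : ℂ}, PD d m q c₀ z₀ → ∃ ε₀, Rates d m q c₀ z₀ ε₀)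
    {d : ℕ} (hd : 2 ≤ d) (c₀ z₀ : ℂ) (m q : ℕ) (hm : 1 ≤ m) (hq : 1 ≤ q)
    (hfix : (fun z : ℂ => z ^ d + c₀)^[m] z₀ = z₀)
    (hper : ∀ j, 0 < j → j < m → (fun z : ℂ => z ^ d + c₀)^[j] z₀ ≠ z₀)
    (hmul : IsPrimitiveRoot (deriv ((fun z : ℂ => z ^ d + c₀)^[m]) z₀) q) :
    ∃ ε₀ : ℝ, 0 < ε₀ ∧ ∀ ψ : ℂ → ℂ, IsExteriorMap (multibrotSet d) ψ →
      (∀ ε : ℝ, 0 < ε → ε ≤ ε₀ → Tendsto (fun r : ℝ => r * Real.log (1 / sSup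
        {h : ℝ | ∃ w α : ℂ, 1 < ‖w‖ ∧ h = ‖w‖ - 1 ∧ ‖ψ w - c₀‖ ≤ ε ∧ ‖α - z₀‖ ≤ ε ∧
          (fun z : ℂ => z ^ d + ψ w)^[m] α = α ∧
          ‖deriv ((fun z : ℂ => z ^ d + ψ w)^[m]) α -
            deriv ((fun z : ℂ => z ^ d + c₀)^[m]) z₀‖ ≤ r}))
        (𝓝[>] 0) (𝓝 (2 * Real.pi * m * Real.log d / q))) ∧
      (∀ F : ℂ → ℂ, ContinuousOn F {w : ℂ | 1 ≤ ‖w‖} → (∀ w : ℂ, 1 < ‖w‖ → F w = ψ w) →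
        (∀ ζ : ℂ, ‖ζ‖ = 1 → F ζ = c₀ → ∀ δ : ℝ, 0 < δ → ∃ η : ℝ, 0 < η ∧ ∀ w : ℂ, 1 < ‖w‖ →
          ‖w - ζ‖ < η → ∀ α : ℂ, ‖α - z₀‖ ≤ ε₀ → (fun z : ℂ => z ^ d + ψ w)^[m] α = α →
            2 * Real.pi * m * Real.log d / q - δ ≤
              ‖deriv ((fun z : ℂ => z ^ d + ψ w)^[m]) α -
                deriv ((fun z : ℂ => z ^ d + c₀)^[m]) z₀‖ * Real.log (1 / (‖w‖ - 1))) ∧
        ∃ ζ : ℂ, ‖ζ‖ = 1 ∧ F ζ = c₀ ∧ ∀ δ η : ℝ, 0 < δ → 0 < η → ∃ w α : ℂ, 1 < ‖w‖ ∧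
          ‖w - ζ‖ < η ∧ ‖α - z₀‖ < η ∧ (fun z : ℂ => z ^ d + ψ w)^[m] α = α ∧
            ‖deriv ((fun z : ℂ => z ^ d + ψ w)^[m]) α -
              deriv ((fun z : ℂ => z ^ d + c₀)^[m]) z₀‖ * Real.log (1 / (‖w‖ - 1)) ≤
                2 * Real.pi * m * Real.log d / q + δ) ∧
      (deriv ((fun z : ℂ => z ^ d + c₀)^[m]) z₀ ≠ 1 → ∀ (al : ℂ → ℂ) (κ : ℂ),
        ContinuousAt al c₀ → al c₀ = z₀ → (∀ᶠ c in 𝓝 c₀, (fun z : ℂ => z ^ d + c)^[m] (al c) = al c) →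
          HasDerivAt (fun c => deriv ((fun z : ℂ => z ^ d + c)^[m]) (al c)) κ c₀ → κ ≠ 0 →
            Tendsto (fun ρ : ℝ => ρ * Real.log (1 / sSup
              {h : ℝ | ∃ w : ℂ, 1 < ‖w‖ ∧ h = ‖w‖ - 1 ∧ ‖ψ w - c₀‖ ≤ ρ})) (𝓝[>] 0)
              (𝓝 (2 * Real.pi * m * Real.log d / (q * ‖κ‖)))) := by
  have h : PD d m q c₀ z₀ := ⟨hd, hm, hq, hfix, hper, hmul⟩
  obtain ⟨ε₀, hε⟩ := hR h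
  refine ⟨ε₀, hε.1, ?_⟩
  intro ψ hψ
  refine ⟨?_, ?_, ?_⟩
  · intro ε h0 h1
    exact hLaw d m q c₀ z₀ ε₀ h hε ψ hψ ε h0 h1
  · intro F hF hE
    exact hExt d m q c₀ z₀ ε₀ h hε ψ F hψ hF hE
  · intro hne al κ h1 h2 h3 h4 h5
    exact hCsc d m q c₀ z₀ ε₀ h hε hne al κ h1 h2 h3 h4 h5 ψ hψ

end Pool.Agent.Y811.PC
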