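import Pool.Agent.Y811.PC.All0
import Pool.Agent.Y811.PC.Fin0
import Pool.Agent.Y811.PC.Stm5
import Pool.Agent.Y154.PC.GU
import Pool.Agent.Y678.PC.Circ
import Pool.Agent.Y165.PC.HM1
import Pool.Agent.Y165.PC.HM3
import Pool.Agent.Y388.PC.Hm2
import Pool.Agent.Y606.PC.HM

set_option autoImplicit false

/-! # The parabolic contact law: final form -/

namespace Pool.Agent.Y811.PC

open Complex Metric Set Filter Topology Pool.Agent.H712R2 Pool.Agent.H713R2 N62a1eb23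

theorem hGU : S_GU := Pool.Agent.Y154.PC.t_GU
theorem hCIRC : S_CIRC := Pool.Agent.Y678.PC.t_CIRC
theorem hHM : S_HM := Pool.Agent.Y606.PC.t_HM (Pool.Agent.Y388.PC.t_HM2 Pool.Agent.Y165.PC.t_HM1)
  Pool.Agent.Y165.PC.t_HM3

theorem rates {d m q : ℕ} {c₀ z₀ : ℂ} (h : PD d m q c₀ z₀) : ∃ ε₀, Rates d m q c₀ z₀ ε₀ :=
  rates_gu hGU h

/-- The contact law of order `p` with constant `A` at a point `c₀` for an exterior map `ψ`: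
(1) `ρ ^ p * log (1 / s(ρ)) → A` as `ρ → 0`, where `s(ρ)` is the supremum of `‖w‖ - 1` over the `w`
with `‖w‖ > 1` and `‖ψ w - c₀‖ ≤ ρ`;
(2) harmonic measure: the proportion of the circle `‖w‖ = r` which `ψ` maps to the closed disc of
radius `ρ` about `c₀` is between `exp (-(A + δ) / ρ ^ p)` and `exp (-(A - δ) / ρ ^ p)` for all
sufficiently small `ρ` and all `r` sufficiently close to `1`;
(3) if `ψ` has a continuous extension `F` to `‖w‖ ≥ 1`, then at every point `ζ` of the circle over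
`c₀` the upper limit of `‖F ξ - c₀‖ ^ p * log (1 / ‖ξ - ζ‖)`, `ξ → ζ` on the circle, is at least
`A`. -/
def ContactLaw (ψ : ℂ → ℂ) (c₀ : ℂ) (p A : ℝ) : Prop :=
  Tendsto (fun ρ : ℝ => ρ ^ p * Real.log (1 / sSup
    {h : ℝ | ∃ w : ℂ, 1 < ‖w‖ ∧ h = ‖w‖ - 1 ∧ ‖ψ w - c₀‖ ≤ ρ})) (𝓝[>] 0) (𝓝 A) ∧
  (∀ δ : ℝ, 0 < δ → ∃ ρ₀ : ℝ, 0 < ρ₀ ∧ ∀ ρ : ℝ, 0 < ρ → ρ < ρ₀ → ∃ r₀ : ℝ, 1 < r₀ ∧
    ∀ r : ℝ, 1 < r → r < r₀ →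
      Real.exp (-(A + δ) / ρ ^ p) ≤
        (MeasureTheory.volume {θ : ℝ | 0 < θ ∧ θ ≤ 2 * Real.pi ∧
          ‖ψ (r * Complex.exp (θ * I)) - c₀‖ ≤ ρ}).toReal / (2 * Real.pi) ∧
      (MeasureTheory.volume {θ : ℝ | 0 < θ ∧ θ ≤ 2 * Real.pi ∧
          ‖ψ (r * Complex.exp (θ * I)) - c₀‖ ≤ ρ}).toReal / (2 * Real.pi) ≤
        Real.exp (-(A - δ) / ρ ^ p)) ∧
  ∀ F : ℂ → ℂ, ContinuousOn F {w : ℂ | 1 ≤ ‖w‖} → (∀ w : ℂ, 1 < ‖w‖ → F w = ψ w) →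
    ∀ ζ : ℂ, ‖ζ‖ = 1 → F ζ = c₀ → ∀ δ η : ℝ, 0 < δ → 0 < η → ∃ ξ : ℂ, ‖ξ‖ = 1 ∧
      0 < ‖ξ - ζ‖ ∧ ‖ξ - ζ‖ < η ∧ A - δ ≤ ‖F ξ - c₀‖ ^ p * Real.log (1 / ‖ξ - ζ‖)

theorem contact_of_law {d : ℕ} (hd : 2 ≤ d) {c₀ : ℂ} (hc : c₀ ∈ multibrotSet d) {p A : ℝ}
    (hp : 0 < p) (hA : 0 < A) {ψ : ℂ → ℂ} (hψ : IsExteriorMap (multibrotSet d) ψ)
    (h : Tendsto (fun ρ : ℝ => ρ ^ p * Real.log (1 / sSup (Dr ψ c₀ ρ))) (𝓝[>] 0) (𝓝 A)) :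
    ContactLaw ψ c₀ p A := by
  refine ⟨h, ?_, ?_⟩
  · intro δ hδ
    exact hHM d c₀ p A hd hc hp hA ψ hψ h δ hδ
  · intro F hF hE ζ hζ hFζ δ η hδ hη
    exact hCIRC d c₀ p A hd hp hA ψ F hψ hF hE h ζ hζ hFζ δ η hδ hη

theorem contact_one {d : ℕ} (hd : 2 ≤ d) {c₀ : ℂ} (hc : c₀ ∈ multibrotSet d) {A : ℝ}
    (hA : 0 < A) {ψ : ℂ → ℂ} (hψ : IsExteriorMap (multibrotSet d) ψ)
    (h : Tendsto (fun ρ : ℝ => ρ * Real.log (1 / sSup (Dr ψ c₀ ρ))) (𝓝[>] 0) (𝓝 A)) :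
    ContactLaw ψ c₀ 1 A := by
  apply contact_of_law hd hc one_pos hA hψ
  simpa only [Real.rpow_one] using h

theorem contact_half {d : ℕ} (hd : 2 ≤ d) {c₀ : ℂ} (hc : c₀ ∈ multibrotSet d) {A : ℝ}
    (hA : 0 < A) {ψ : ℂ → ℂ} (hψ : IsExteriorMap (multibrotSet d) ψ)
    (h : Tendsto (fun ρ : ℝ => √ρ * Real.log (1 / sSup (Dr ψ c₀ ρ))) (𝓝[>] 0) (𝓝 A)) :
    ContactLaw ψ c₀ (1 / 2) A := by
  apply contact_of_law hd hc (by norm_num) hA hψ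
  simpa only [Real.sqrt_eq_rpow] using h

end Pool.Agent.Y811.PC
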