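import Pool.Agent.Y811.PC.Fin

set_option autoImplicit false

/-! # The parabolic contact law: final form, all parabolic parameters -/

namespace Pool.Agent.Y811.PC

open Complex Metric Set Filter Topology Pool.Agent.H712R2 Pool.Agent.H713R2 N62a1eb23

theorem main_law (hSAT : S_SAT) (hT1 : S_TRANS1) (hPRIM : S_PRIM) {d : ℕ} (hd : 2 ≤ d)
    (c₀ z₀ : ℂ) (m q : ℕ) (hm : 1 ≤ m) (hq : 1 ≤ q)
    (hfix : (fun z : ℂ => z ^ d + c₀)^[m] z₀ = z₀)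
    (hper : ∀ j, 0 < j → j < m → (fun z : ℂ => z ^ d + c₀)^[j] z₀ ≠ z₀)
    (hmul : IsPrimitiveRoot (deriv ((fun z : ℂ => z ^ d + c₀)^[m]) z₀) q) :
    (∃ ε₀ : ℝ, 0 < ε₀ ∧ ∀ ψ : ℂ → ℂ, IsExteriorMap (multibrotSet d) ψ →
      (∀ ε : ℝ, 0 < ε → ε ≤ ε₀ → Tendsto (fun r : ℝ => r * Real.log (1 / sSup
        {h : ℝ | ∃ w α : ℂ, 1 < ‖w‖ ∧ h = ‖w‖ - 1 ∧ ‖ψ w - c₀‖ ≤ ε ∧ ‖α - z₀‖ ≤ ε ∧
          (fun z : ℂ => z ^ d + ψ w)^[m] α = α ∧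
          ‖deriv ((fun z : ℂ => z ^ d + ψ w)^[m]) α -
            deriv ((fun z : ℂ => z ^ d + c₀)^[m]) z₀‖ ≤ r}))
        (𝓝[>] 0) (𝓝 (2 * Real.pi * m * Real.log d / q))) ∧
      (∀ F : ℂ → ℂ, ContinuousOn F {w : ℂ | 1 ≤ ‖w‖} → (∀ w : ℂ, 1 < ‖w‖ → F w = ψ w) →
        (∀ ζ : ℂ, ‖ζ‖ = 1 → F ζ = c₀ → ∀ δ : ℝ, 0 < δ → ∃ η : ℝ, 0 < η ∧ ∀ w : ℂ, 1 < ‖w‖ →
          ‖w - ζ‖ < η → ∀ α : ℂ, ‖α - z₀‖ ≤ ε₀ → (fun z : ℂ => z ^ d + ψ w)^[m] α = α →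
            2 * Real.pi * m * Real.log d / q - δ ≤
              ‖deriv ((fun z : ℂ => z ^ d + ψ w)^[m]) α -
                deriv ((fun z : ℂ => z ^ d + c₀)^[m]) z₀‖ * Real.log (1 / (‖w‖ - 1))) ∧
        ∃ ζ : ℂ, ‖ζ‖ = 1 ∧ F ζ = c₀ ∧ ∀ δ η : ℝ, 0 < δ → 0 < η → ∃ w α : ℂ, 1 < ‖w‖ ∧
          ‖w - ζ‖ < η ∧ ‖α - z₀‖ < η ∧ (fun z : ℂ => z ^ d + ψ w)^[m] α = α ∧
            ‖deriv ((fun z : ℂ => z ^ d + ψ w)^[m]) α -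
              deriv ((fun z : ℂ => z ^ d + c₀)^[m]) z₀‖ * Real.log (1 / (‖w‖ - 1)) ≤
                2 * Real.pi * m * Real.log d / q + δ)) ∧
    (deriv ((fun z : ℂ => z ^ d + c₀)^[m]) z₀ ≠ 1 → ∃ (al : ℂ → ℂ) (κ : ℂ),
      AnalyticAt ℂ al c₀ ∧ al c₀ = z₀ ∧
      (∀ᶠ c in 𝓝 c₀, (fun z : ℂ => z ^ d + c)^[m] (al c) = al c) ∧
      HasDerivAt (fun c => deriv ((fun z : ℂ => z ^ d + c)^[m]) (al c)) κ c₀ ∧ κ ≠ 0 ∧
        ∀ ψ : ℂ → ℂ, IsExteriorMap (multibrotSet d) ψ →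
          ContactLaw ψ c₀ 1 (2 * Real.pi * m * Real.log d / (q * ‖κ‖))) ∧
    (deriv ((fun z : ℂ => z ^ d + c₀)^[m]) z₀ = 1 →
      deriv (fun c => (fun z : ℂ => z ^ d + c)^[m] z₀) c₀ ≠ 0 ∧
      deriv (deriv ((fun z : ℂ => z ^ d + c₀)^[m])) z₀ ≠ 0 ∧
        ∀ ψ : ℂ → ℂ, IsExteriorMap (multibrotSet d) ψ →
          ContactLaw ψ c₀ (1 / 2) (2 * Real.pi * m * Real.log d /
            √(2 * ‖deriv (fun c => (fun z : ℂ => z ^ d + c)^[m] z₀) c₀‖ *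
              ‖deriv (deriv ((fun z : ℂ => z ^ d + c₀)^[m])) z₀‖))) := by
  have h : PD d m q c₀ z₀ := ⟨hd, hm, hq, hfix, hper, hmul⟩
  obtain ⟨ε₀, hε⟩ := rates h
  obtain ⟨⟨a, ha⟩, -, hmem, -⟩ := hFATOU d m q c₀ z₀ h
  have hd1 : (1 : ℝ) < d := by exact_mod_cast (show 1 < d by omega)
  have hlog : 0 < Real.log d := Real.log_pos hd1
  have hm0 : (0 : ℝ) < m := by exact_mod_cast (show 0 < m by omega)
  have hq0 : (0 : ℝ) < q := by exact_mod_cast (show 0 < q by omega)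
  refine ⟨⟨ε₀, hε.1, ?_⟩, ?_, ?_⟩
  · intro ψ hψ
    refine ⟨?_, ?_⟩
    · intro ε h0 h1
      exact hLAW d m q c₀ z₀ ε₀ h hε ψ hψ ε h0 h1
    · intro F hF hE
      exact hEXT d m q c₀ z₀ ε₀ h hε ψ F hψ hF hE
  · intro hne
    obtain ⟨al, κ, h1, h2, h3, h4, h5, h6⟩ := hSAT d m q c₀ z₀ ε₀ h hε hne
    refine ⟨al, κ, h1, h2, h3, h4, h5, ?_⟩
    intro ψ hψ
    have hκ : 0 < ‖κ‖ := norm_pos_iff.2 h5
    exact contact_one hd hmem (by positivity) hψ (h6 ψ hψ)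
  · intro h1
    have hq1 : q = 1 := by
      have h2 := hmul
      rw [h1] at h2
      exact h2.unique IsPrimitiveRoot.one
    subst hq1
    have h2 : deriv (fun c => (fun z : ℂ => z ^ d + c)^[m] z₀) c₀ ≠ 0 := hT1 d m c₀ z₀ h
    obtain ⟨h3, h4⟩ := hPRIM d m c₀ z₀ ε₀ a h hε ha h2
    refine ⟨h2, h3, ?_⟩
    intro ψ hψ
    have h5 : 0 < ‖deriv (fun c => (fun z : ℂ => z ^ d + c)^[m] z₀) c₀‖ := norm_pos_iff.2 h2
    have h6 : 0 < ‖deriv (deriv ((fun z : ℂ => z ^ d + c₀)^[m])) z₀‖ := norm_pos_iff.2 h3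
    exact contact_half hd hmem (by positivity) hψ (h4 ψ hψ)

/-- the satellite parameters on the boundary of the main component -/
theorem main_card {d : ℕ} (hd : 2 ≤ d) {q : ℕ} (hq : 2 ≤ q) {z₀ : ℂ}
    (hl : IsPrimitiveRoot ((d : ℂ) * z₀ ^ (d - 1)) q) {ψ : ℂ → ℂ}
    (hψ : IsExteriorMap (multibrotSet d) ψ) :
    ContactLaw ψ (z₀ - z₀ ^ d) 1 (2 * Real.pi * Real.log d / q *
      (‖1 - (d : ℂ) * z₀ ^ (d - 1)‖ * ‖z₀‖ / (d - 1))) := by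
  have hmu : ∀ c z : ℂ, mu d 1 c z = (d : ℂ) * z ^ (d - 1) := by
    intro c z
    have h1 : HasDerivAt (fun z : ℂ => z ^ d + c) ((d : ℂ) * z ^ (d - 1)) z :=
      (hasDerivAt_pow d z).add_const c
    exact h1.deriv
  have h : PD d 1 q (z₀ - z₀ ^ d) z₀ := by
    refine ⟨hd, le_rfl, by omega, ?_, ?_, ?_⟩
    · show z₀ ^ d + (z₀ - z₀ ^ d) = z₀
      ring
    · intro j h1 h2
      omega
    · rw [hmu]
      exact hl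
  obtain ⟨ε₀, hε⟩ := rates h
  obtain ⟨-, -, hmem, -⟩ := hFATOU d 1 q _ z₀ h
  have hne1 : (d : ℂ) * z₀ ^ (d - 1) ≠ 1 := hl.ne_one (by omega)
  have hz₀ : z₀ ≠ 0 := by
    rintro rfl
    rw [zero_pow (by omega), mul_zero] at hl
    exact hl.ne_zero (by omega) rfl
  have hd1 : (1 : ℝ) < d := by exact_mod_cast (show 1 < d by omega)
  have hlog : 0 < Real.log d := Real.log_pos hd1
  have hq0 : (0 : ℝ) < q := by exact_mod_cast (show 0 < q by omega)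
  have h1 : 0 < ‖1 - (d : ℂ) * z₀ ^ (d - 1)‖ := norm_pos_iff.2 (sub_ne_zero.2 hne1.symm)
  have h2 : 0 < ‖z₀‖ := norm_pos_iff.2 hz₀
  have h3 : (0 : ℝ) < d - 1 := by linarith
  exact contact_one hd hmem (by positivity) hψ (hCARD d q z₀ ε₀ hd hq hl hε ψ hψ)

/-- the cusps of the main component -/
theorem main_cusp {d : ℕ} (hd : 2 ≤ d) {z₀ : ℂ} (hl : (d : ℂ) * z₀ ^ (d - 1) = 1) {ψ : ℂ → ℂ}
    (hψ : IsExteriorMap (multibrotSet d) ψ) :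
    ContactLaw ψ (z₀ - z₀ ^ d) (1 / 2)
      (2 * Real.pi * Real.log d * √(‖z₀‖ / (2 * (d - 1)))) := by
  have hmu : ∀ c z : ℂ, mu d 1 c z = (d : ℂ) * z ^ (d - 1) := by
    intro c z
    have h1 : HasDerivAt (fun z : ℂ => z ^ d + c) ((d : ℂ) * z ^ (d - 1)) z :=
      (hasDerivAt_pow d z).add_const c
    exact h1.deriv
  have h : PD d 1 1 (z₀ - z₀ ^ d) z₀ := by
    refine ⟨hd, le_rfl, le_rfl, ?_, ?_, ?_⟩
    · show z₀ ^ d + (z₀ - z₀ ^ d) = z₀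
      ring
    · intro j h1 h2
      omega
    · rw [hmu, hl]
      exact IsPrimitiveRoot.one
  obtain ⟨ε₀, hε⟩ := rates h
  obtain ⟨-, -, hmem, -⟩ := hFATOU d 1 1 _ z₀ h
  have hz₀ : z₀ ≠ 0 := by
    rintro rfl
    rw [zero_pow (by omega), mul_zero] at hl
    exact zero_ne_one hl
  have hd1 : (1 : ℝ) < d := by exact_mod_cast (show 1 < d by omega)
  have hlog : 0 < Real.log d := Real.log_pos hd1
  have h2 : 0 < ‖z₀‖ := norm_pos_iff.2 hz₀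
  have h3 : (0 : ℝ) < d - 1 := by linarith
  have h4 : 0 < √(‖z₀‖ / (2 * ((d : ℝ) - 1))) := Real.sqrt_pos.2 (by positivity)
  exact contact_half hd hmem (by positivity) hψ (hCUSP d z₀ ε₀ hd hl hε ψ hψ)

end Pool.Agent.Y811.PC
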