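import Pool.Agent.Y811.PC.Stm4

set_option autoImplicit false

/-! # Exact order of the density of hyperbolicity at the parabolic parameters -/

namespace Pool.Agent.Y811.PC

open Complex Metric Set Filter Topology MeasureTheory Pool.Agent.H712R2 Pool.Agent.H713R2 N62a1eb23

/-- `z ^ d + c` has an attracting cycle -/
def HypP (d : ℕ) (c : ℂ) : Prop := ∃ (N : ℕ) (z : ℂ), 1 ≤ N ∧ G d N c z = z ∧ ‖mu d N c z‖ < 1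

/-- residues: `1 / p` has the sum of the `1 / p'(ζ)` as its integral (simple zeros) -/
def S_RES : Prop := ∀ (p : Polynomial ℂ) (z₀ : ℂ) (ρ : ℝ), 0 < ρ →
  (∀ z ∈ sphere z₀ ρ, p.eval z ≠ 0) →
  (∀ z ∈ ball z₀ ρ, p.eval z = 0 → p.derivative.eval z ≠ 0) →
  ∃ S : Finset ℂ, (∀ z, z ∈ S ↔ z ∈ ball z₀ ρ ∧ p.eval z = 0) ∧ S.card ≤ p.natDegree ∧
    (∮ z in C(z₀, ρ), (p.eval z)⁻¹) = 2 * Real.pi * I * ∑ ζ ∈ S, (p.derivative.eval ζ)⁻¹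

/-- satellite parameters: the parameters without attracting cycle are in a strip in the coordinate
`1 / (1 - μ ^ q)` -/
def S_AIDX : Prop := ∀ (d m q : ℕ) (c₀ z₀ : ℂ), PD d m q c₀ z₀ → ∀ al : ℂ → ℂ,
  AnalyticAt ℂ al c₀ → al c₀ = z₀ → (∀ᶠ c in 𝓝 c₀, G d m c (al c) = al c) →
    ∃ K ε : ℝ, 0 < K ∧ 0 < ε ∧ ∀ c ∈ ball c₀ ε,
      (∀ z, G d (m * q) c z = z → mu d (m * q) c z ≠ 1) → ¬ HypP d c →
        |(1 / (1 - mu d m c (al c) ^ q)).re| ≤ K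

/-- satellite parameters: the same in the parameter plane -/
def S_THIN : Prop := ∀ (d m q : ℕ) (c₀ z₀ : ℂ), PD d m q c₀ z₀ → ∀ (al : ℂ → ℂ) (κ : ℂ),
  AnalyticAt ℂ al c₀ → al c₀ = z₀ → (∀ᶠ c in 𝓝 c₀, G d m c (al c) = al c) →
    HasDerivAt (fun c => mu d m c (al c)) κ c₀ → κ ≠ 0 →
      ∃ (κ' : ℂ) (K ε : ℝ), κ' ≠ 0 ∧ 0 < K ∧ 0 < ε ∧ ∀ c ∈ ball c₀ ε,
        (∀ z, G d (m * q) c z = z → mu d (m * q) c z ≠ 1) → ¬ HypP d c →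
          |(κ' * (c - c₀)).re| ≤ K * ‖c - c₀‖ ^ (2 : ℝ)

/-- primitive parameters: the parameters without attracting cycle are close to a ray -/
def S_UPRIM : Prop := ∀ (d m : ℕ) (c₀ z₀ : ℂ), PD d m 1 c₀ z₀ →
  deriv (fun c => G d m c z₀) c₀ ≠ 0 → deriv (deriv (G d m c₀)) z₀ ≠ 0 →
    ∃ (κ' : ℂ) (K ε : ℝ), κ' ≠ 0 ∧ 0 < K ∧ 0 < ε ∧ ∀ c ∈ ball c₀ ε, ¬ HypP d c →
      |(κ' * (c - c₀)).re| ≤ K * ‖c - c₀‖ ^ (3 / 2 : ℝ)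

/-- area and inradius of thin sets -/
def S_STRIP : Prop := ∀ (κ c₀ : ℂ) (K e ε : ℝ) (S E : Set ℂ), κ ≠ 0 → 1 < e → 0 < K → 0 < ε →
  E.Finite → (∀ c ∈ ball c₀ ε, c ∈ S → c ∉ E → |(κ * (c - c₀)).re| ≤ K * ‖c - c₀‖ ^ e) →
    ∃ C r₀ : ℝ, 0 < C ∧ 0 < r₀ ∧ ∀ r : ℝ, 0 < r → r < r₀ →
      volume (ball c₀ r ∩ S) ≤ ENNReal.ofReal (C * r ^ (1 + e)) ∧
      ∀ (c₁ : ℂ) (s : ℝ), ball c₁ s ⊆ ball c₀ r ∩ S → s ≤ C * r ^ e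

/-- Koebe's theorem on discs: the quarter theorem, and growth -/
def S_KOE : Prop := ∃ Cg : ℝ, 0 < Cg ∧ ∀ (φ : ℂ → ℂ) (a : ℂ) (R : ℝ), 0 < R →
  DifferentiableOn ℂ φ (ball a R) → InjOn φ (ball a R) →
    ball (φ a) (R * ‖deriv φ a‖ / 4) ⊆ φ '' ball a R ∧
    ∀ w : ℂ, ‖w - a‖ ≤ R / 2 → ‖φ w - φ a‖ ≤ Cg * (R * ‖deriv φ a‖)

/-- lower bound for the area and the inradius of the complement near a point of `M_d` -/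
def S_LOW : Prop := ∀ d : ℕ, 2 ≤ d → ∀ ψ : ℂ → ℂ, IsExteriorMap (multibrotSet d) ψ →
  ∃ k r₀ : ℝ, 0 < k ∧ 0 < r₀ ∧ ∀ c₀ ∈ multibrotSet d, ∀ r : ℝ, 0 < r → r < r₀ →
    ∀ w : ℂ, 1 < ‖w‖ → ‖w‖ ≤ 2 → ‖ψ w - c₀‖ ≤ r / 4 →
      ENNReal.ofReal (k * r ^ 2 / (1 + Real.log (1 / (‖w‖ - 1)))) ≤
        volume (ball c₀ r \ multibrotSet d) ∧
      ∃ c₁ : ℂ, ball c₁ (k * r / (1 + Real.log (1 / (‖w‖ - 1)))) ⊆ ball c₀ r \ multibrotSet d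

/-- exact order of the complement at a point with a contact law -/
def S_OUT : Prop := ∀ (d : ℕ) (c₀ : ℂ) (p A : ℝ), 2 ≤ d → c₀ ∈ multibrotSet d → 0 < p → 0 < A →
  ∀ ψ : ℂ → ℂ, IsExteriorMap (multibrotSet d) ψ →
    Tendsto (fun ρ : ℝ => ρ ^ p * Real.log (1 / sSup (Dr ψ c₀ ρ))) (𝓝[>] 0) (𝓝 A) →
      ∃ C r₀ : ℝ, 0 < C ∧ 0 < r₀ ∧ ∀ r : ℝ, 0 < r → r < r₀ →
        ENNReal.ofReal (r ^ (2 + p) / C) ≤ volume (ball c₀ r \ multibrotSet d) ∧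
        ∃ c₁ : ℂ, ball c₁ (r ^ (1 + p) / C) ⊆ ball c₀ r \ multibrotSet d

end Pool.Agent.Y811.PC
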