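import Pool.Agent.Y811.PC.Fin3
import Pool.Agent.Y811.PC.Stm6

set_option autoImplicit false

/-! # Exact order of the density of hyperbolicity at the parabolic parameters -/

namespace Pool.Agent.Y811.PC

open Complex Metric Set Filter Topology MeasureTheory Pool.Agent.H712R2 Pool.Agent.H713R2 N62a1eb23

/-- combination of the bounds -/
theorem dens_comb {d : ℕ} {c₀ : ℂ} {e : ℝ} {C₁ r₁ C₂ r₂ : ℝ} (h1 : 0 < C₁) (hr1 : 0 < r₁)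
    (h2 : 0 < C₂) (hr2 : 0 < r₂) {S : Set ℂ}
    (hU : ∀ r : ℝ, 0 < r → r < r₁ →
      volume (ball c₀ r ∩ S) ≤ ENNReal.ofReal (C₁ * r ^ (1 + e)) ∧
      ∀ (c₁ : ℂ) (s : ℝ), ball c₁ s ⊆ ball c₀ r ∩ S → s ≤ C₁ * r ^ e)
    (hL : ∀ r : ℝ, 0 < r → r < r₂ →
      ENNReal.ofReal (r ^ (1 + e) / C₂) ≤ volume (ball c₀ r \ multibrotSet d) ∧
      ∃ c₁ : ℂ, ball c₁ (r ^ e / C₂) ⊆ ball c₀ r \ multibrotSet d) :
    ∃ C r₀ : ℝ, 0 < C ∧ 0 < r₀ ∧ ∀ r : ℝ, 0 < r → r < r₀ →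
      volume (ball c₀ r ∩ S) ≤ ENNReal.ofReal (C * r ^ (1 + e)) ∧
      ENNReal.ofReal (r ^ (1 + e) / C) ≤ volume (ball c₀ r \ multibrotSet d) ∧
      (∀ (c₁ : ℂ) (s : ℝ), ball c₁ s ⊆ ball c₀ r ∩ S → s ≤ C * r ^ e) ∧
      ∃ c₁ : ℂ, ball c₁ (r ^ e / C) ⊆ ball c₀ r \ multibrotSet d := by
  refine ⟨max C₁ C₂, min r₁ r₂, lt_max_of_lt_left h1, lt_min hr1 hr2, ?_⟩
  intro r hr hrr
  have h3 := lt_of_lt_of_le hrr (min_le_left _ _)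
  have h4 := lt_of_lt_of_le hrr (min_le_right _ _)
  obtain ⟨a1, a2⟩ := hU r hr h3
  obtain ⟨b1, c₁, b2⟩ := hL r hr h4
  have p1 : 0 < r ^ (1 + e) := Real.rpow_pos_of_pos hr _
  have p2 : 0 < r ^ e := Real.rpow_pos_of_pos hr _
  refine ⟨a1.trans (ENNReal.ofReal_le_ofReal ?_), (ENNReal.ofReal_le_ofReal ?_).trans b1, ?_, c₁,
    (ball_subset_ball ?_).trans b2⟩
  · exact mul_le_mul_of_nonneg_right (le_max_left _ _) p1.le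
  · exact div_le_div_of_nonneg_left p1.le h2 (le_max_right _ _)
  · intro x s hx
    exact (a2 x s hx).trans (mul_le_mul_of_nonneg_right (le_max_left _ _) p2.le)
  · exact div_le_div_of_nonneg_left p2.le h2 (le_max_right _ _)

theorem dens_law (hTHIN : S_THIN) (hUPRIM : S_UPRIM) (hSTRIP : S_STRIP) (hOUT : S_OUT)
    {d m q : ℕ} {c₀ z₀ : ℂ} (h : PD d m q c₀ z₀) {e : ℝ}
    (he : e = if mu d m c₀ z₀ = 1 then 3 / 2 else 2) :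
    ∃ C r₀ : ℝ, 0 < C ∧ 0 < r₀ ∧ ∀ r : ℝ, 0 < r → r < r₀ →
      volume (ball c₀ r ∩ {c | ¬ HypP d c}) ≤ ENNReal.ofReal (C * r ^ (1 + e)) ∧
      ENNReal.ofReal (r ^ (1 + e) / C) ≤ volume (ball c₀ r \ multibrotSet d) ∧
      (∀ (c₁ : ℂ) (s : ℝ), ball c₁ s ⊆ ball c₀ r ∩ {c | ¬ HypP d c} → s ≤ C * r ^ e) ∧
      ∃ c₁ : ℂ, ball c₁ (r ^ e / C) ⊆ ball c₀ r \ multibrotSet d := by
  obtain ⟨ε₀, hε⟩ := rates h
  obtain ⟨⟨a, ha⟩, -, hmem, -⟩ := hFATOU d m q c₀ z₀ h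
  obtain ⟨β, hβ⟩ := exists_beta (d := d) h.hd
  obtain ⟨ψ, hψ⟩ : ∃ ψ, IsExteriorMap (multibrotSet d) ψ := ⟨_, exteriorMap_of_beta hβ⟩
  have hd1 : (1 : ℝ) < d := by exact_mod_cast (show 1 < d by have := h.hd; omega)
  have hlog : 0 < Real.log d := Real.log_pos hd1
  have hm0 : (0 : ℝ) < m := by exact_mod_cast (show 0 < m by have := h.hm; omega)
  have hq0 : (0 : ℝ) < q := by exact_mod_cast (show 0 < q by have := h.hq; omega)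
  by_cases hmu : mu d m c₀ z₀ = 1
  · rw [if_pos hmu] at he
    subst he
    have hq1 : q = 1 := by
      have h2 := h.mul
      rw [hmu] at h2
      exact h2.unique IsPrimitiveRoot.one
    subst hq1
    have h2 : deriv (fun c => G d m c z₀) c₀ ≠ 0 := hTRANS1 d m c₀ z₀ h
    obtain ⟨h3, h4⟩ := hPRIM d m c₀ z₀ ε₀ a h hε ha h2
    obtain ⟨κ', K, ε, hκ, hK, hε', hS⟩ := hUPRIM d m c₀ z₀ h h2 h3
    obtain ⟨C₁, r₁, hC1, hr1, hU⟩ := hSTRIP κ' c₀ K (3 / 2) ε {c | ¬ HypP d c} ∅ hκ (by norm_num)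
      hK hε' Set.finite_empty (fun c hc hcS _ => hS c hc hcS)
    have hlaw : Tendsto (fun ρ : ℝ => ρ ^ (1 / 2 : ℝ) * Real.log (1 / sSup (Dr ψ c₀ ρ))) (𝓝[>] 0)
        (𝓝 (2 * Real.pi * m * Real.log d /
          √(2 * ‖deriv (fun c => G d m c z₀) c₀‖ * ‖deriv (deriv (G d m c₀)) z₀‖))) := by
      refine (h4 ψ hψ).congr fun ρ => ?_
      rw [Real.sqrt_eq_rpow]
    have h5 : 0 < ‖deriv (fun c => G d m c z₀) c₀‖ := norm_pos_iff.2 h2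
    have h6 : 0 < ‖deriv (deriv (G d m c₀)) z₀‖ := norm_pos_iff.2 h3
    obtain ⟨C₂, r₂, hC2, hr2, hL⟩ := hOUT d c₀ (1 / 2) _ h.hd hmem (by norm_num) (by positivity) ψ
      hψ hlaw
    refine dens_comb (e := 3 / 2) hC1 hr1 hC2 hr2 hU ?_
    intro r hr hrr
    have h7 := hL r hr hrr
    rw [show (2 : ℝ) + 1 / 2 = 1 + 3 / 2 by norm_num, show (1 : ℝ) + 1 / 2 = 3 / 2 by norm_num] at h7
    exact h7
  · rw [if_neg hmu] at he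
    subst he
    obtain ⟨al, κ, h1, h2, h3, h4, h5, h6⟩ := hSAT d m q c₀ z₀ ε₀ h hε hmu
    obtain ⟨κ', K, ε, hκ, hK, hε', hS⟩ := hTHIN d m q c₀ z₀ h al κ h1 h2 h3 h4 h5
    have hfin := hFIN d (m * q) h.hd (Nat.mul_pos h.hm h.hq) 1 (by simp)
    obtain ⟨C₁, r₁, hC1, hr1, hU⟩ := hSTRIP κ' c₀ K 2 ε {c | ¬ HypP d c}
      {c : ℂ | ∃ z, G d (m * q) c z = z ∧ mu d (m * q) c z = 1} hκ (by norm_num) hK hε' hfin
      (fun c hc hcS hcE => hS c hc (fun z hz h8 => hcE ⟨z, hz, h8⟩) hcS)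
    have hlaw : Tendsto (fun ρ : ℝ => ρ ^ (1 : ℝ) * Real.log (1 / sSup (Dr ψ c₀ ρ))) (𝓝[>] 0)
        (𝓝 (2 * Real.pi * m * Real.log d / (q * ‖κ‖))) := by
      refine (h6 ψ hψ).congr fun ρ => ?_
      rw [Real.rpow_one]
    have hκ0 : 0 < ‖κ‖ := norm_pos_iff.2 h5
    obtain ⟨C₂, r₂, hC2, hr2, hL⟩ := hOUT d c₀ 1 _ h.hd hmem (by norm_num) (by positivity) ψ hψ hlaw
    refine dens_comb (e := 2) hC1 hr1 hC2 hr2 hU ?_
    intro r hr hrr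
    have h7 := hL r hr hrr
    rw [show (2 : ℝ) + 1 = 1 + 2 by norm_num, show (1 : ℝ) + 1 = 2 by norm_num] at h7
    exact h7

end Pool.Agent.Y811.PC
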