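import Pool.Agent.Y811.PC.Stm

set_option autoImplicit false

/-! # The parabolic contact law: the modulus of continuity on the circle -/

namespace Pool.Agent.Y811.PC

open Complex Metric Set Filter Topology Pool.Agent.H712R2 Pool.Agent.H713R2 N62a1eb23

/-- the modulus of continuity on the circle of a continuous extension -/
def S_CIRC : Prop := ∀ (d : ℕ) (c₀ : ℂ) (p A : ℝ), 2 ≤ d → 0 < p → 0 < A → ∀ ψ F : ℂ → ℂ,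
  IsExteriorMap (multibrotSet d) ψ → ContinuousOn F {w : ℂ | 1 ≤ ‖w‖} →
    (∀ w : ℂ, 1 < ‖w‖ → F w = ψ w) →
    Tendsto (fun ρ : ℝ => ρ ^ p * Real.log (1 / sSup (Dr ψ c₀ ρ))) (𝓝[>] 0) (𝓝 A) →
      ∀ ζ : ℂ, ‖ζ‖ = 1 → F ζ = c₀ → ∀ δ η : ℝ, 0 < δ → 0 < η →
        ∃ ξ : ℂ, ‖ξ‖ = 1 ∧ 0 < ‖ξ - ζ‖ ∧ ‖ξ - ζ‖ < η ∧
          A - δ ≤ ‖F ξ - c₀‖ ^ p * Real.log (1 / ‖ξ - ζ‖)

end Pool.Agent.Y811.PC
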