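import Pool.Agent.Y811.PC.Stm3

set_option autoImplicit false

/-! # Transversality at parabolic parameters (quadratic differentials), and the law in the
parameter scale for every parabolic parameter -/

namespace Pool.Agent.Y811.PC

open Complex Metric Set Filter Topology Pool.Agent.H712R2 Pool.Agent.H713R2 N62a1eb23

/-- a cycle `b 0, …, b (m - 1)` of `z ^ d + c` with distinct nonzero points and a neutral multiplier;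
`β` are coefficients with the invariance relation -/
structure Cyc (d m : ℕ) (c : ℂ) (b β : ℕ → ℂ) (A : ℂ) : Prop where
  hd : 2 ≤ d
  hm : 1 ≤ m
  step : ∀ j, b (j + 1) = b j ^ d + c
  per : ∀ j, b (j + m) = b j
  inj : ∀ i j, i < m → j < m → b i = b j → i = j
  ne : ∀ j, b j ≠ 0
  neutral : ‖∏ j ∈ Finset.range m, ((d : ℂ) * b j ^ (d - 1))‖ = 1
  recu : ∀ j, β (j + 1) = β j / ((d : ℂ) * b j ^ (d - 1)) - ((d : ℂ) - 1) * A / ((d : ℂ) * b j ^ d)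
  bper : ∀ j, β (j + m) = β j
  sum : ∑ j ∈ Finset.range m, β j = 0

/-- the quadratic differential -/
noncomputable def gg (m : ℕ) (b β : ℕ → ℂ) (A z : ℂ) : ℂ :=
  ∑ j ∈ Finset.range m, (A / (z - b j) ^ 2 + β j / (z - b j))

/-- the primitive `d`-th root of unity -/
noncomputable def om (d : ℕ) : ℂ := Complex.exp (2 * Real.pi * I / d)

/-- the invariance of the quadratic differential -/
def S_FE : Prop := ∀ (d m : ℕ) (c : ℂ) (b β : ℕ → ℂ) (A : ℂ), Cyc d m c b β A → ∀ w : ℂ,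
  (∀ j, j < m → w ^ d ≠ b j ^ d) →
    gg m b β A (w ^ d + c) * ((d : ℂ) * w ^ (d - 1)) ^ 2 =
      ∑ k ∈ Finset.range d, om d ^ (2 * k) * gg m b β A (om d ^ k * w)

/-- decay at infinity -/
def S_DEC : Prop := ∀ (d m : ℕ) (c : ℂ) (b β : ℕ → ℂ) (A : ℂ), Cyc d m c b β A →
  ∃ C R : ℝ, 0 < C ∧ 1 ≤ R ∧ ∀ z : ℂ, R ≤ ‖z‖ → ‖gg m b β A z‖ ≤ C / ‖z‖ ^ 3

/-- change of variables for `w ↦ w ^ d + c` -/
def S_COV : Prop := ∀ (d : ℕ) (c : ℂ), 1 ≤ d → ∀ h : ℂ → ENNReal, Measurable h →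
  ∫⁻ w : ℂ, h (w ^ d + c) * ENNReal.ofReal (‖(d : ℂ) * w ^ (d - 1)‖ ^ 2) = d * ∫⁻ z : ℂ, h z

/-- strictness in the triangle inequality -/
def S_STRICT : Prop := ∀ (d m : ℕ) (c : ℂ) (b β : ℕ → ℂ) (A : ℂ), Cyc d m c b β A →
  ¬ (A = 0 ∧ ∀ j, β j = 0) → ∃ (w₁ : ℂ) (δ γ : ℝ), 0 < δ ∧ 0 < γ ∧
    (∀ w ∈ ball w₁ δ, ∀ j, j < m → δ ≤ ‖w ^ d + c - b j‖) ∧
    ∀ w ∈ ball w₁ δ, ‖∑ k ∈ Finset.range d, om d ^ (2 * k) * gg m b β A (om d ^ k * w)‖ + γ ≤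
      ∑ k ∈ Finset.range d, ‖gg m b β A (om d ^ k * w)‖

/-- the radii of the discs about the points of the cycle -/
noncomputable def tj (d : ℕ) (b : ℕ → ℂ) (j : ℕ) : ℝ :=
  ∏ i ∈ Finset.range j, ‖(d : ℂ) * b i ^ (d - 1)‖

/-- the plane without small discs about the cycle -/
def VV (d m : ℕ) (b : ℕ → ℂ) (r : ℝ) : Set ℂ := {z : ℂ | ∀ j, j < m → r * tj d b j ≤ ‖z - b j‖}

/-- the mass on the preimage of `VV` is at most the mass on `VV` plus `O(r)` -/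
def S_ANN : Prop := ∀ (d m : ℕ) (c : ℂ) (b β : ℕ → ℂ) (A : ℂ), Cyc d m c b β A →
  ∃ C r₀ : ℝ, 0 < C ∧ 0 < r₀ ∧ ∀ r : ℝ, 0 < r → r < r₀ →
    ∫⁻ z in VV d m b r, ENNReal.ofReal ‖gg m b β A z‖ < ⊤ ∧
    ∫⁻ w in {w : ℂ | w ^ d + c ∈ VV d m b r}, ENNReal.ofReal ‖gg m b β A w‖ ≤
      ∫⁻ z in VV d m b r, ENNReal.ofReal ‖gg m b β A z‖ + ENNReal.ofReal (C * r)

/-- there is no invariant quadratic differential -/
def S_NOFIX : Prop := ∀ (d m : ℕ) (c : ℂ) (b β : ℕ → ℂ) (A : ℂ), Cyc d m c b β A →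
  A = 0 ∧ ∀ j, β j = 0

/-- transversality, multiplier not `1` -/
def S_TRANS2 : Prop := ∀ (d m q : ℕ) (c₀ z₀ : ℂ), PD d m q c₀ z₀ → mu d m c₀ z₀ ≠ 1 →
  ∀ (al : ℂ → ℂ) (κ : ℂ), ContinuousAt al c₀ → al c₀ = z₀ →
    (∀ᶠ c in 𝓝 c₀, G d m c (al c) = al c) → HasDerivAt (fun c => mu d m c (al c)) κ c₀ → κ ≠ 0

/-- transversality, multiplier `1` -/
def S_TRANS1 : Prop := ∀ (d m : ℕ) (c₀ z₀ : ℂ), PD d m 1 c₀ z₀ →
  deriv (fun c => G d m c z₀) c₀ ≠ 0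

/-- the law in the parameter scale, every satellite parameter -/
def S_SAT : Prop := ∀ (d m q : ℕ) (c₀ z₀ : ℂ) (ε₀ : ℝ), PD d m q c₀ z₀ → Rates d m q c₀ z₀ ε₀ →
  mu d m c₀ z₀ ≠ 1 → ∃ (al : ℂ → ℂ) (κ : ℂ), AnalyticAt ℂ al c₀ ∧ al c₀ = z₀ ∧
    (∀ᶠ c in 𝓝 c₀, G d m c (al c) = al c) ∧ HasDerivAt (fun c => mu d m c (al c)) κ c₀ ∧ κ ≠ 0 ∧
      ∀ ψ : ℂ → ℂ, IsExteriorMap (multibrotSet d) ψ →
        Tendsto (fun ρ : ℝ => ρ * Real.log (1 / sSup (Dr ψ c₀ ρ))) (𝓝[>] 0)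
          (𝓝 (2 * Real.pi * m * Real.log d / (q * ‖κ‖)))

/-- the law in the parameter scale, primitive parameters -/
def S_PRIM : Prop := ∀ (d m : ℕ) (c₀ z₀ : ℂ) (ε₀ : ℝ) (a : ℂ → ℂ), PD d m 1 c₀ z₀ →
  Rates d m 1 c₀ z₀ ε₀ → Germ d m 1 c₀ z₀ a → deriv (fun c => G d m c z₀) c₀ ≠ 0 →
    deriv (deriv (G d m c₀)) z₀ ≠ 0 ∧ ∀ ψ : ℂ → ℂ, IsExteriorMap (multibrotSet d) ψ →
      Tendsto (fun ρ : ℝ => √ρ * Real.log (1 / sSup (Dr ψ c₀ ρ))) (𝓝[>] 0)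
        (𝓝 (2 * Real.pi * m * Real.log d /
          √(2 * ‖deriv (fun c => G d m c z₀) c₀‖ * ‖deriv (deriv (G d m c₀)) z₀‖)))

end Pool.Agent.Y811.PC
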